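import Pool.Agent.Work.MP_c4d05f_lc.Alg

/-!
# The algorithm of the static approach

`x : Inp` is the input graph, `A` the list of its alive vertices (only these are used), `R` is the
list of the vertices that are required to be black. A guess `g = (y, p)` is a vertex `y` together with `p = y`
(meaning: `y` is white) or with its black partner `p ≠ y`.
-/

set_option autoImplicit false

namespace Pool.Agent.Work.MP_c4d05f_lc.N

open Pool.Agent.Work.PolyTime Pool.Agent.Work.MP_c4d05f_lc

/-- Two common neighbours. -/
def twB (x : Inp) (A : List ℕ) (u v : ℕ) : Bool :=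
  A.any fun c => A.any fun d => !(decide (c = d)) &&
    (adjB x u c && (adjB x v c && (adjB x u d && adjB x v d)))

/-- The class of `v`. -/
def clL (x : Inp) (A : List ℕ) (v : ℕ) : List ℕ :=
  lfp A fun L b => decide (b = v) || L.any fun a => twB x A a b

/-- `u` is a white vertex of the dead set of the guess `g`. -/
def whB (x : Inp) (A : List ℕ) (g : ℕ × ℕ) (u : ℕ) : Bool :=
  bif decide (g.2 = g.1) then memB u (clL x A g.1) else
    A.any fun w => (adjB x g.1 w || adjB x g.2 w) &&
      (!(decide (w = g.1)) && (!(decide (w = g.2)) && memB u (clL x A w)))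

/-- `u` is a black vertex of the dead set of the guess `g`. -/
def blB (g : ℕ × ℕ) (u : ℕ) : Bool :=
  !(decide (g.2 = g.1)) && (decide (u = g.1) || decide (u = g.2))

/-- The part of `K` that is alive after the guesses. -/
def restL (x : Inp) (A K : List ℕ) (gs : List (ℕ × ℕ)) : List ℕ :=
  K.filter fun u => !(gs.any fun g => whB x A g u || blB g u)

/-- All pairs of elements of `A`. -/
def pairsL (A : List ℕ) : List (ℕ × ℕ) := A.flatMap fun a => A.map fun b => (a, b)

/-- All lists with at most `w` elements of `gs`. -/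
def tuplesL (gs : List (ℕ × ℕ)) : ℕ → List (List (ℕ × ℕ))
  | 0 => [[]]
  | w + 1 => [] :: (tuplesL gs w).flatMap fun l => gs.map fun g => g :: l

/-- The regions. -/
def regionsL (w : ℕ) (x : Inp) (A : List ℕ) : List (List ℕ) :=
  (tuplesL (pairsL A) w).flatMap fun gs => (restL x A A gs).map fun v => reachL x (restL x A A gs) v

/-- Vertices of `K` that have to be black. -/
def reqB (x : Inp) (A R K : List ℕ) (u : ℕ) : Bool :=
  memB u R || A.any fun v => adjB x u v && !(memB v K)

/-- The local conditions. -/
def okB (x : Inp) (A R K : List ℕ) (g : ℕ × ℕ) : Bool :=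
  (decide (g.2 = g.1) || (memB g.2 K && adjB x g.1 g.2)) &&
  K.all fun u => !(whB x A g u) ||
    (!(reqB x A R K u) && (!(blB g u) && K.all fun v => !(whB x A g v) || !(adjB x u v)))

/-- The rule R1. -/
def stepB (x : Inp) (A R : List ℕ) (L : List (List ℕ)) (K : List ℕ) : Bool :=
  K.any fun y => A.any fun p => okB x A R K (y, p) &&
    (restL x A K [(y, p)]).all fun v => memB (reachL x (restL x A K [(y, p)]) v) L

/-- The solved regions. -/
def solvedL (w : ℕ) (x : Inp) (A R : List ℕ) : List (List ℕ) :=
  lfp (regionsL w x A) (stepB x A R)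

/-- All components are solved. -/
def mainB (w : ℕ) (x : Inp) (A R : List ℕ) : Bool :=
  A.all fun v => memB (reachL x A v) (solvedL w x A R)

/-! ### Preprocessing -/

/-- `w` is the tip of a diamond, or of a `K4`. -/
def tipB (x : Inp) (w : ℕ) : Bool :=
  (List.range x.1).any fun a => (List.range x.1).any fun b => (List.range x.1).any fun c =>
    adjB x w a && (adjB x w b && (adjB x a b && (adjB x c a && (adjB x c b && !(decide (c = w))))))

/-- `w` is the centre of a butterfly. -/
def butB (x : Inp) (w : ℕ) : Bool :=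
  (List.range x.1).any fun a => (List.range x.1).any fun b => adjB x w a && (adjB x w b &&
    (adjB x a b && (List.range x.1).any fun c => (List.range x.1).any fun d => adjB x w c &&
      (adjB x w d && (adjB x c d && (!(decide (c = a)) && (!(decide (c = b)) &&
        (!(decide (d = a)) && !(decide (d = b)))))))))

/-- The initial facts. -/
def iniL (x : Inp) : List (ℕ × Bool) :=
  ((List.range x.1).filter fun w => tipB x w || butB x w).map fun w => (w, false)

/-- The derived facts. -/
def preS (x : Inp) : List (ℕ × Bool) := facts x (List.range x.1) (iniL x)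

/-- The alive vertices. -/
def preA (x : Inp) : List ℕ := aliveL x (List.range x.1) (preS x)

/-- The vertices required to be black. -/
def preR (x : Inp) : List ℕ := (preA x).filter (flagB x (List.range x.1) (preS x))

/-- The algorithm. -/
def algoN (w : ℕ) (x : Inp) : Bool :=
  consB (List.range x.1) (preS x) && mainB w x (preA x) (preR x)

/-! ### Running time -/

section

variable {α : Type} [Code α]

@[fun_prop]
theorem ptime_twB {x : α → Inp} {A : α → List ℕ} {u v : α → ℕ} (hx : PTime x) (hA : PTime A)
    (hu : PTime u) (hv : PTime v) : PTime (fun a => twB (x a) (A a) (u a) (v a)) := by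
  unfold twB
  refine PTime.any hA (PTime.any (l := fun y : α × ℕ => A y.1) (hA.comp PTime.fst) ?_)
  fun_prop

@[fun_prop]
theorem ptime_clL {x : α → Inp} {A : α → List ℕ} {v : α → ℕ} (hx : PTime x) (hA : PTime A)
    (hv : PTime v) : PTime (fun a => clL (x a) (A a) (v a)) := by
  unfold clL
  refine PTime.lfp hA (PTime.or (by fun_prop) (PTime.any (by fun_prop) ?_))
  fun_prop

@[fun_prop]
theorem ptime_whB {x : α → Inp} {A : α → List ℕ} {g : α → ℕ × ℕ} {u : α → ℕ} (hx : PTime x)
    (hA : PTime A) (hg : PTime g) (hu : PTime u) :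
    PTime (fun a => whB (x a) (A a) (g a) (u a)) := by
  unfold whB
  refine PTime.cond (by fun_prop) (by fun_prop) (PTime.any hA ?_)
  fun_prop

@[fun_prop]
theorem ptime_blB {g : α → ℕ × ℕ} {u : α → ℕ} (hg : PTime g) (hu : PTime u) :
    PTime (fun a => blB (g a) (u a)) := by
  unfold blB
  fun_prop

@[fun_prop]
theorem ptime_restL {x : α → Inp} {A K : α → List ℕ} {gs : α → List (ℕ × ℕ)} (hx : PTime x)
    (hA : PTime A) (hK : PTime K) (hg : PTime gs) :
    PTime (fun a => restL (x a) (A a) (K a) (gs a)) := by
  unfold restL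
  refine PTime.filter hK (PTime.not (PTime.any (by fun_prop) ?_))
  fun_prop

@[fun_prop]
theorem ptime_pairsL {A : α → List ℕ} (hA : PTime A) : PTime (fun a => pairsL (A a)) := by
  unfold pairsL
  refine PTime.flatMap hA (PTime.map (hA.comp PTime.fst) ?_)
  fun_prop

theorem ptime_tuplesL {gs : α → List (ℕ × ℕ)} (hg : PTime gs) (w : ℕ) :
    PTime (fun a => tuplesL (gs a) w) := by
  induction w with
  | zero => exact PTime.const _
  | succ w ih =>
    unfold tuplesL
    refine PTime.cons (PTime.const _) (PTime.flatMap ih (PTime.map (hg.comp PTime.fst) ?_))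
    fun_prop

theorem ptime_regionsL {x : α → Inp} {A : α → List ℕ} (hx : PTime x) (hA : PTime A) (w : ℕ) :
    PTime (fun a => regionsL w (x a) (A a)) := by
  unfold regionsL
  refine PTime.flatMap (ptime_tuplesL (by fun_prop) w) (PTime.map ?_ ?_)
  · exact ptime_restL (hx.comp PTime.fst) (hA.comp PTime.fst) (hA.comp PTime.fst) PTime.snd
  · refine ptime_reachL (by fun_prop) ?_ (by fun_prop)
    exact ptime_restL (x := fun y : (α × List (ℕ × ℕ)) × ℕ => x y.1.1) (by fun_prop)
      (by fun_prop) (by fun_prop) (by fun_prop)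

@[fun_prop]
theorem ptime_reqB {x : α → Inp} {A R K : α → List ℕ} {u : α → ℕ} (hx : PTime x) (hA : PTime A)
    (hR : PTime R) (hK : PTime K) (hu : PTime u) :
    PTime (fun a => reqB (x a) (A a) (R a) (K a) (u a)) := by
  unfold reqB
  refine PTime.or (by fun_prop) (PTime.any hA ?_)
  fun_prop

@[fun_prop]
theorem ptime_okB {x : α → Inp} {A R K : α → List ℕ} {g : α → ℕ × ℕ} (hx : PTime x) (hA : PTime A)
    (hR : PTime R) (hK : PTime K) (hg : PTime g) :
    PTime (fun a => okB (x a) (A a) (R a) (K a) (g a)) := by
  unfold okB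
  refine PTime.and (by fun_prop) (PTime.all hK (PTime.or (by fun_prop) (PTime.and (by fun_prop)
    (PTime.and (by fun_prop) (PTime.all (by fun_prop) ?_)))))
  fun_prop

@[fun_prop]
theorem ptime_stepB {x : α → Inp} {A R : α → List ℕ} {L : α → List (List ℕ)} {K : α → List ℕ}
    (hx : PTime x) (hA : PTime A) (hR : PTime R) (hL : PTime L) (hK : PTime K) :
    PTime (fun a => stepB (x a) (A a) (R a) (L a) (K a)) := by
  unfold stepB
  refine PTime.any hK (PTime.any (by fun_prop) (PTime.and (by fun_prop) (PTime.all
    (by fun_prop) ?_)))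
  refine PTime.memB ?_ (by fun_prop)
  fun_prop

theorem ptime_solvedL {x : α → Inp} {A R : α → List ℕ} (hx : PTime x) (hA : PTime A)
    (hR : PTime R) (w : ℕ) : PTime (fun a => solvedL w (x a) (A a) (R a)) := by
  unfold solvedL
  exact PTime.lfp (ptime_regionsL hx hA w) (by fun_prop)

theorem ptime_mainB {x : α → Inp} {A R : α → List ℕ} (hx : PTime x) (hA : PTime A)
    (hR : PTime R) (w : ℕ) : PTime (fun a => mainB w (x a) (A a) (R a)) := by
  unfold mainB
  refine PTime.all hA (PTime.memB (by fun_prop) ?_)
  exact (ptime_solvedL hx hA hR w).comp PTime.fst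

@[fun_prop]
theorem ptime_tipB {x : α → Inp} {w : α → ℕ} (hx : PTime x) (hw : PTime w) :
    PTime (fun a => tipB (x a) (w a)) := by
  unfold tipB
  refine PTime.any (by fun_prop) (PTime.any (by fun_prop) (PTime.any (by fun_prop) ?_))
  fun_prop

@[fun_prop]
theorem ptime_butB {x : α → Inp} {w : α → ℕ} (hx : PTime x) (hw : PTime w) :
    PTime (fun a => butB (x a) (w a)) := by
  unfold butB
  refine PTime.any (by fun_prop) (PTime.any (by fun_prop) (PTime.and (by fun_prop)
    (PTime.and (by fun_prop) (PTime.and (by fun_prop) (PTime.any (by fun_prop)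
      (PTime.any (by fun_prop) ?_))))))
  fun_prop

@[fun_prop]
theorem ptime_iniL {x : α → Inp} (hx : PTime x) : PTime (fun a => iniL (x a)) := by
  unfold iniL
  refine PTime.map (PTime.filter (by fun_prop) ?_) (by fun_prop)
  fun_prop

@[fun_prop]
theorem ptime_preS {x : α → Inp} (hx : PTime x) : PTime (fun a => preS (x a)) := by
  unfold preS
  fun_prop

@[fun_prop]
theorem ptime_preA {x : α → Inp} (hx : PTime x) : PTime (fun a => preA (x a)) := by
  unfold preA
  fun_prop

@[fun_prop]
theorem ptime_preR {x : α → Inp} (hx : PTime x) : PTime (fun a => preR (x a)) := by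
  unfold preR
  refine PTime.filter (by fun_prop) ?_
  fun_prop

end

theorem ptime_algoN (w : ℕ) : PTime (fun x : Inp => algoN w x) := by
  unfold algoN
  refine PTime.and (by fun_prop) (ptime_mainB (by fun_prop) (by fun_prop) (by fun_prop) w)

end Pool.Agent.Work.MP_c4d05f_lc.N
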