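import Pool.Agent.Work.MP_c4d05f_lc.N.Alg.Defs

/-!
# Properties of dead sets, regions and derivations

All for a solution `β` of the whole graph (`Col G Set.univ β`).
-/

set_option autoImplicit false

namespace Pool.Agent.Work.MP_c4d05f_lc.N

open Pool.Agent.Work.MP_c4d05f_lc

variable {V : Type*} {G : SimpleGraph V} {β : Set V}

theorem Tw.symm {u v : V} (h : Tw G u v) : Tw G v u := by
  obtain ⟨c, d, hcd, h1, h2, h3, h4⟩ := h
  exact ⟨c, d, hcd, h2, h1, h4, h3⟩

theorem mem_cl_self (v : V) : v ∈ cl G v := Relation.ReflTransGen.refl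

theorem cl_trans {u v w : V} (h : u ∈ cl G v) (h' : w ∈ cl G u) : w ∈ cl G v :=
  Relation.ReflTransGen.trans h h'

theorem cl_symm {u v : V} (h : u ∈ cl G v) : v ∈ cl G u := by
  have h' : Relation.ReflTransGen (Tw G) v u := h
  induction h' with
  | refl => exact Relation.ReflTransGen.refl
  | @tail b c h1 h2 ih => exact cl_trans (Relation.ReflTransGen.single h2.symm) (ih h1)

theorem cl_eq {u v : V} (h : u ∈ cl G v) : cl G u = cl G v := by
  ext z
  exact ⟨fun hz => cl_trans h hz, fun hz => cl_trans (cl_symm h) hz⟩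

/-- Two black neighbours of a black vertex are equal. -/
theorem black_unique (hβ : Col G Set.univ β) {b p q : V} (hb : b ∈ β) (hp : p ∈ β)
    (hq : q ∈ β) (h1 : G.Adj b p) (h2 : G.Adj b q) : p = q := by
  obtain ⟨v, -, -, -, huni⟩ := hβ.2 b trivial hb
  exact (huni p trivial hp h1).trans (huni q trivial hq h2).symm

/-- Each black vertex has a black neighbour. -/
theorem exists_partner (hβ : Col G Set.univ β) {b : V} (hb : b ∈ β) :
    ∃ p, p ∈ β ∧ G.Adj b p := by
  obtain ⟨v, -, hv, hadj, -⟩ := hβ.2 b trivial hb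
  exact ⟨v, hv, hadj⟩

/-- In a 4-cycle, adjacent vertices have different colours. -/
theorem col_c4 (hβ : Col G Set.univ β) {a b c d : V} (hab : G.Adj a b) (hbc : G.Adj b c)
    (hcd : G.Adj c d) (hda : G.Adj d a) (hac : a ≠ c) (hbd : b ≠ d) : a ∈ β ↔ b ∉ β := by
  constructor
  · intro ha hb
    rcases hβ.1 c trivial d trivial hcd with h1 | h1
    · exact hac (black_unique hβ hb ha h1 hab.symm hbc)
    · exact hbd (black_unique hβ ha hb h1 hab hda.symm)
  · intro h1
    exact (hβ.1 a trivial b trivial hab).resolve_right h1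

/-- `Tw` preserves the colour. -/
theorem Tw.color (hβ : Col G Set.univ β) {u v : V} (h : Tw G u v) : u ∈ β ↔ v ∈ β := by
  by_cases huv : u = v
  · rw [huv]
  · obtain ⟨c, d, hcd, h1, h2, h3, h4⟩ := h
    rw [col_c4 hβ h1 h2.symm h4 h3.symm huv hcd, col_c4 hβ h2 h1.symm h3 h4.symm (Ne.symm huv) hcd]

/-- Classes are monochromatic. -/
theorem cl_color (hβ : Col G Set.univ β) {u v : V} (h : u ∈ cl G v) : u ∈ β ↔ v ∈ β := by
  have h' : Relation.ReflTransGen (Tw G) v u := h
  induction h' with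
  | refl => exact Iff.rfl
  | @tail b c h1 h2 ih => exact (h2.symm.color hβ).trans (ih h1)

theorem self_mem_dd (x : V) : x ∈ dd G β x := by
  by_cases h : x ∈ β
  · exact Or.inr (Or.inl ⟨h, Or.inl rfl⟩)
  · exact Or.inl ⟨h, mem_cl_self x⟩

theorem dd_white {x : V} (hx : x ∉ β) : dd G β x = cl G x := by
  ext u
  constructor
  · rintro (⟨-, h⟩ | ⟨h, -⟩ | ⟨h, -⟩)
    · exact h
    · exact absurd h hx
    · exact absurd h hx
  · intro h
    exact Or.inl ⟨hx, h⟩

/-- (a) If a black vertex is dead then all its neighbours are dead. -/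
theorem dd_black (hβ : Col G Set.univ β) {x u z : V} (hu : u ∈ dd G β x) (hub : u ∈ β)
    (h : G.Adj u z) : z ∈ dd G β x := by
  rcases hu with ⟨hx, hu⟩ | ⟨hx, hu⟩ | ⟨hx, b, w, hb, hbx, hw, hbw, hu⟩
  · exact absurd ((cl_color hβ hu).1 hub) hx
  · rcases hu with rfl | ⟨-, hxu⟩
    · by_cases hz : z ∈ β
      · exact Or.inr (Or.inl ⟨hx, Or.inr ⟨hz, h⟩⟩)
      · exact Or.inr (Or.inr ⟨hx, u, z, hx, Or.inl rfl, hz, h, mem_cl_self z⟩)
    · by_cases hz : z ∈ β
      · have : z = x := black_unique hβ hub hz hx h hxu.symm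
        exact Or.inr (Or.inl ⟨hx, Or.inl this⟩)
      · exact Or.inr (Or.inr ⟨hx, u, z, hub, Or.inr hxu, hz, h, mem_cl_self z⟩)
  · exact absurd ((cl_color hβ hu).1 hub) hw

/-- Dead white classes are completely dead. -/
theorem dd_cl {x u z : V} (hu : u ∈ dd G β x) (hub : u ∉ β)
    (h : z ∈ cl G u) : z ∈ dd G β x := by
  rcases hu with ⟨hx, hu⟩ | ⟨hx, hu⟩ | ⟨hx, b, w, hb, hbx, hw, hbw, hu⟩
  · exact Or.inl ⟨hx, cl_trans hu h⟩
  · rcases hu with rfl | ⟨hu, -⟩
    · exact absurd hx hub
    · exact absurd hu hub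
  · exact Or.inr (Or.inr ⟨hx, b, w, hb, hbx, hw, hbw, cl_trans hu h⟩)

/-- Dead sets are closed. -/
theorem dd_subset (hβ : Col G Set.univ β) {x u : V} (hu : u ∈ dd G β x) :
    dd G β u ⊆ dd G β x := by
  intro z hz
  by_cases hub : u ∈ β
  · rcases hz with ⟨h, -⟩ | ⟨-, h⟩ | ⟨-, b, w, hb, hbu, hw, hbw, hz⟩
    · exact absurd hub h
    · rcases h with rfl | ⟨-, h⟩
      · exact hu
      · exact dd_black hβ hu hub h
    · have hbx : b ∈ dd G β x := by
        rcases hbu with rfl | h
        · exact hu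
        · exact dd_black hβ hu hub h
      exact dd_cl (dd_black hβ hbx hb hbw) hw hz
  · rw [dd_white hub] at hz
    exact dd_cl hu hub hz

theorem self_mem_dD {X : Set V} {x : V} (hx : x ∈ X) : x ∈ dD G β X := ⟨x, hx, self_mem_dd x⟩

theorem dD_mono {X Y : Set V} (h : X ⊆ Y) : dD G β X ⊆ dD G β Y :=
  fun _ ⟨x, hx, hu⟩ => ⟨x, h hx, hu⟩

theorem dD_empty : dD G β (∅ : Set V) = ∅ := by
  ext u
  simp [dD]

theorem dD_union {X Y : Set V} : dD G β (X ∪ Y) = dD G β X ∪ dD G β Y := by
  ext u
  constructor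
  · rintro ⟨x, hx | hx, hu⟩
    · exact Or.inl ⟨x, hx, hu⟩
    · exact Or.inr ⟨x, hx, hu⟩
  · rintro (⟨x, hx, hu⟩ | ⟨x, hx, hu⟩)
    · exact ⟨x, Or.inl hx, hu⟩
    · exact ⟨x, Or.inr hx, hu⟩

theorem dD_insert {X : Set V} {y : V} : dD G β (insert y X) = dd G β y ∪ dD G β X := by
  ext u
  constructor
  · rintro ⟨x, hx | hx, hu⟩
    · exact Or.inl (hx ▸ hu)
    · exact Or.inr ⟨x, hx, hu⟩
  · rintro (hu | ⟨x, hx, hu⟩)
    · exact ⟨y, Or.inl rfl, hu⟩
    · exact ⟨x, Or.inr hx, hu⟩

/-- (a) -/
theorem dD_black (hβ : Col G Set.univ β) {X : Set V} {u z : V} (hu : u ∈ dD G β X) (hub : u ∈ β)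
    (h : G.Adj u z) : z ∈ dD G β X := by
  obtain ⟨x, hx, hu⟩ := hu
  exact ⟨x, hx, dd_black hβ hu hub h⟩

theorem dD_cl {X : Set V} {u z : V} (hu : u ∈ dD G β X) (hub : u ∉ β)
    (h : z ∈ cl G u) : z ∈ dD G β X := by
  obtain ⟨x, hx, hu⟩ := hu
  exact ⟨x, hx, dd_cl hu hub h⟩

theorem dD_subset (hβ : Col G Set.univ β) {X : Set V} {u : V} (hu : u ∈ dD G β X) :
    dd G β u ⊆ dD G β X := by
  obtain ⟨x, hx, hu⟩ := hu
  exact fun z hz => ⟨x, hx, dd_subset hβ hu hz⟩

/-- (P) A dead white and an alive vertex have at most one common neighbour. -/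
theorem not_tw {X : Set V} {u u' : V} (hu : u ∈ dD G β X) (hub : u ∉ β)
    (hu' : u' ∉ dD G β X) : ¬ Tw G u u' :=
  fun h => hu' (dD_cl hu hub (Relation.ReflTransGen.single h))

/-- (b) The neighbours of a region outside the region are white and dead. -/
theorem region_nbr (hβ : Col G Set.univ β) {X : Set V} {v u z : V} (hv : v ∉ dD G β X)
    (hu : u ∈ Comp G (dD G β X)ᶜ v) (hz : z ∉ Comp G (dD G β X)ᶜ v) (h : G.Adj u z) :
    z ∉ β ∧ z ∈ dD G β X := by
  have hzd : z ∈ dD G β X := by
    by_contra hcon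
    exact hz (adj_mem_comp hu hcon h)
  exact ⟨fun hzb => comp_subset (A := (dD G β X)ᶜ) hv hu (dD_black hβ hzd hzb h.symm), hzd⟩

/-- The black neighbours of a black vertex of a region are in the region. -/
theorem region_partner (hβ : Col G Set.univ β) {X : Set V} {v u p : V} (hv : v ∉ dD G β X)
    (hu : u ∈ Comp G (dD G β X)ᶜ v) (hp : p ∈ β) (h : G.Adj u p) :
    p ∈ Comp G (dD G β X)ᶜ v := by
  by_contra hcon
  exact (region_nbr hβ hv hu hcon h).1 hp

/-- Walks along a class of alive white vertices stay in the region. -/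
theorem region_cl (hβ : Col G Set.univ β) {X : Set V} {v u z : V} (hv : v ∉ dD G β X)
    (hu : u ∈ Comp G (dD G β X)ᶜ v) (hub : u ∉ β) (hz : z ∈ cl G u) :
    z ∈ Comp G (dD G β X)ᶜ v := by
  have h' : Relation.ReflTransGen (Tw G) u z := hz
  induction h' with
  | refl => exact hu
  | @tail b c h1 h2 ih =>
    have hbK := ih h1
    have hbb : b ∉ β := fun h => hub ((cl_color hβ (show b ∈ cl G u from h1)).1 h)
    have hbd : b ∉ dD G β X := comp_subset (A := (dD G β X)ᶜ) hv hbK
    have hcd : c ∉ dD G β X := fun h =>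
      hbd (dD_cl h (fun hc => hbb ((h2.color hβ).2 hc)) (Relation.ReflTransGen.single h2.symm))
    obtain ⟨e, f, -, hbe, hce, -, -⟩ := h2
    have heb : e ∈ β := (hβ.1 b trivial e trivial hbe).resolve_left hbb
    have hed : e ∉ dD G β X := fun h => hbd (dD_black hβ h heb hbe.symm)
    exact adj_mem_comp (adj_mem_comp hbK hed hbe) hcd hce.symm

/-- (c) If `x` is alive and its dead set meets the region then `x` is in the region. -/
theorem region_closed (hβ : Col G Set.univ β) {X : Set V} {v u x : V} (hv : v ∉ dD G β X)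
    (hu : u ∈ Comp G (dD G β X)ᶜ v) (hx : u ∈ dd G β x) (hxX : x ∉ dD G β X) :
    x ∈ Comp G (dD G β X)ᶜ v := by
  rcases hx with ⟨hxb, hux⟩ | ⟨hxb, hux⟩ | ⟨hxb, b, w, hb, hbx, hw, hbw, huw⟩
  · have hub : u ∉ β := fun h => hxb ((cl_color hβ hux).1 h)
    exact region_cl hβ hv hu hub (cl_symm hux)
  · rcases hux with rfl | ⟨hub, hxu⟩
    · exact hu
    · exact adj_mem_comp hu hxX hxu.symm
  · have hub : u ∉ β := fun h => hw ((cl_color hβ huw).1 h)
    have hwK := region_cl hβ hv hu hub (cl_symm huw)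
    have hwd : w ∉ dD G β X := comp_subset (A := (dD G β X)ᶜ) hv hwK
    have hbd : b ∉ dD G β X := fun h => hwd (dD_black hβ h hb hbw)
    have hbK := adj_mem_comp hwK hbd hbw.symm
    rcases hbx with rfl | hxb'
    · exact hbK
    · exact adj_mem_comp hbK hxX hxb'.symm

/-- (c) If `y` is not in the region then the dead set of `y` does not meet the region. -/
theorem region_disjoint (hβ : Col G Set.univ β) {X : Set V} {v u y : V} (hv : v ∉ dD G β X)
    (hu : u ∈ Comp G (dD G β X)ᶜ v) (hy : y ∉ Comp G (dD G β X)ᶜ v) : u ∉ dd G β y := by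
  intro h
  by_cases hyX : y ∈ dD G β X
  · exact comp_subset (A := (dD G β X)ᶜ) hv hu (dD_subset hβ hyX h)
  · exact hy (region_closed hβ hv hu h hyX)

/-- Components of a part of a component. -/
theorem comp_comp {A B : Set V} {v u : V} (hv : v ∈ A) (hu : u ∈ Comp G A v) :
    Comp G (Comp G A v \ B) u = Comp G (A \ B) u := by
  ext z
  constructor
  · intro h
    have h' : Reach G (Comp G A v \ B) u z := h
    clear h
    induction h' with
    | refl => exact Relation.ReflTransGen.refl
    | @tail b c h1 h2 ih =>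
      exact ih.tail ⟨h2.1, comp_subset hv h2.2.1, h2.2.2⟩
  · intro h
    have h' : Reach G (A \ B) u z := h
    clear h
    have key : Reach G (Comp G A v \ B) u z ∧ z ∈ Comp G A v := by
      induction h' with
      | refl => exact ⟨Relation.ReflTransGen.refl, hu⟩
      | @tail b c h1 h2 ih =>
        have hc : c ∈ Comp G A v := adj_mem_comp ih.2 h2.2.1 h2.1
        exact ⟨ih.1.tail ⟨h2.1, hc, h2.2.2⟩, hc⟩
    exact key.1

theorem comp_mono {A B : Set V} (h : A ⊆ B) (u : V) : Comp G A u ⊆ Comp G B u := by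
  intro z hz
  have h' : Reach G A u z := hz
  clear hz
  induction h' with
  | refl => exact Relation.ReflTransGen.refl
  | @tail b c h1 h2 ih => exact Relation.ReflTransGen.tail ih ⟨h2.1, h h2.2⟩

/-- The components of `K \ dd G β y` are regions (with `y` added to `X`). -/
theorem comp_step {X : Set V} {v u y : V} (hv : v ∉ dD G β X)
    (hu : u ∈ Comp G (dD G β X)ᶜ v) :
    Comp G (Comp G (dD G β X)ᶜ v \ dd G β y) u = Comp G (dD G β (insert y X))ᶜ u := by
  rw [comp_comp hv hu, dD_insert, Set.compl_union, Set.sdiff_eq, Set.inter_comm]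

/-- Killing a set `Y` instead of one vertex. -/
theorem der_of_kill_aux [DecidableEq V] (hβ : Col G Set.univ β) {w : ℕ} (Y : Finset V) :
    ∀ (X : Finset V) (v : V), v ∉ dD G β X → X.card + Y.card ≤ w →
      (∀ u ∈ Comp G (dD G β X)ᶜ v, u ∉ dD G β Y →
        Der G β w (Comp G (Comp G (dD G β X)ᶜ v \ dD G β Y) u)) →
      Der G β w (Comp G (dD G β X)ᶜ v) := by
  induction Y using Finset.induction_on with
  | empty =>
    intro X v hv _ h
    have h1 := h v (self_mem_comp v) (by simp [dD])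
    have h2 : (Comp G (dD G β (X : Set V))ᶜ v \ dD G β ((∅ : Finset V) : Set V)) =
        Comp G (dD G β (X : Set V))ᶜ v \ ∅ := by
      simp [dD]
    rwa [h2, comp_comp hv (self_mem_comp v), Set.sdiff_empty] at h1
  | @insert y Y hyY ih =>
    intro X v hv hcard h
    rw [Finset.card_insert_of_notMem hyY] at hcard
    rw [Finset.coe_insert, dD_insert] at h
    by_cases hy : y ∈ Comp G (dD G β X)ᶜ v
    · refine Der.step (y := y) ⟨X, by omega, v, hv, rfl⟩ hy ?_
      rintro u ⟨huK, huy⟩
      have hu' : u ∉ dD G β ((insert y X : Finset V) : Set V) := by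
        rw [Finset.coe_insert, dD_insert]
        rintro (h1 | h1)
        · exact huy h1
        · exact comp_subset (A := (dD G β (X : Set V))ᶜ) hv huK h1
      have e1 : Comp G (Comp G (dD G β (X : Set V))ᶜ v \ dd G β y) u =
          Comp G (dD G β ((insert y X : Finset V) : Set V))ᶜ u := by
        rw [Finset.coe_insert]
        exact comp_step hv huK
      rw [e1]
      refine ih (insert y X) u hu' ?_ ?_
      · have := Finset.card_insert_le y X
        omega
      · intro z hz hzY
        have hzK : z ∈ Comp G (dD G β (X : Set V))ᶜ v := by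
          rw [← e1, comp_comp hv huK] at hz
          have h1 := comp_mono (G := G) (A := (dD G β (X : Set V))ᶜ \ dd G β y) Set.sdiff_subset u hz
          rwa [comp_eq (A := (dD G β (X : Set V))ᶜ) hv huK] at h1
        have hzd : z ∉ dD G β ((insert y X : Finset V) : Set V) :=
          comp_subset (A := (dD G β ((insert y X : Finset V) : Set V))ᶜ) hu' hz
        rw [Finset.coe_insert, dD_insert] at hzd
        have h1 := h z hzK (by
          rintro (h2 | h2)
          · exact hzd (Or.inl h2)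
          · exact hzY h2)
        rw [comp_comp hv hzK] at h1
        rw [comp_comp hu' hz, Finset.coe_insert, dD_insert]
        have e2 : (dd G β y ∪ dD G β (X : Set V))ᶜ \ dD G β (Y : Set V) =
            (dD G β (X : Set V))ᶜ \ (dd G β y ∪ dD G β (Y : Set V)) := by
          ext a
          simp only [Set.mem_sdiff, Set.mem_compl_iff, Set.mem_union]
          tauto
        rwa [e2]
    · have e : Comp G (dD G β (X : Set V))ᶜ v \ (dd G β y ∪ dD G β (Y : Set V)) =
          Comp G (dD G β (X : Set V))ᶜ v \ dD G β (Y : Set V) := by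
        ext a
        simp only [Set.mem_sdiff, Set.mem_union, not_or]
        refine and_congr_right fun ha => ?_
        exact ⟨fun h1 => h1.2, fun h1 => ⟨region_disjoint hβ hv ha hy, h1⟩⟩
      refine ih X v hv (by omega) ?_
      intro u hu huY
      have h1 := h u hu (by
        rintro (h2 | h2)
        · exact region_disjoint hβ hv hu hy h2
        · exact huY h2)
      rwa [e] at h1

/-- If `K` is a region of order `w₁`, `Y` has at most `w - w₁` elements and all components of
`K \ dD G β Y` are solved then `K` is solved. -/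
theorem der_of_kill (hβ : Col G Set.univ β) {w w₁ : ℕ} {K : Set V} (hK : Region G β w₁ K)
    (Y : Finset V) (hY : w₁ + Y.card ≤ w)
    (h : ∀ u ∈ K, u ∉ dD G β Y → Der G β w (Comp G (K \ dD G β Y) u)) : Der G β w K := by
  classical
  obtain ⟨X, hX, v, hv, rfl⟩ := hK
  exact der_of_kill_aux hβ Y X v hv (by omega) h

/-- The components of `K \ dD G β Y` are regions. -/
theorem region_kill {w : ℕ} {X Y : Finset V} {v u : V} (hv : v ∉ dD G β X)
    (hu : u ∈ Comp G (dD G β X)ᶜ v) (huY : u ∉ dD G β Y) (hw : X.card + Y.card ≤ w) :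
    Region G β w (Comp G (Comp G (dD G β X)ᶜ v \ dD G β Y) u) := by
  classical
  have e : (dD G β ((X ∪ Y : Finset V) : Set V))ᶜ = (dD G β (X : Set V))ᶜ \ dD G β (Y : Set V) := by
    rw [Finset.coe_union, dD_union, Set.compl_union, Set.sdiff_eq]
  refine ⟨X ∪ Y, (Finset.card_union_le X Y).trans hw, u, ?_, ?_⟩
  · rw [← Set.mem_compl_iff, e]
    exact ⟨comp_subset (A := (dD G β (X : Set V))ᶜ) hv hu, huY⟩
  · rw [e, comp_comp hv hu]

/-- The whole component of a vertex is a region. -/
theorem region_univ (w : ℕ) (v : V) : Region G β w (Comp G Set.univ v) := by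
  refine ⟨∅, Nat.zero_le _, v, by simp [dD], ?_⟩
  have : (dD G β ((∅ : Finset V) : Set V))ᶜ = Set.univ := by simp [dD]
  rw [this]

end Pool.Agent.Work.MP_c4d05f_lc.N
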