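import Pool.Agent.Work.MP_c4d05f_lc.N.Alg.Sound
import Pool.Agent.Work.MP_c4d05f_lc.N.Alg.Basic

/-!
# Completeness of the main algorithm (from the derivations of the haven part)

The semantic graph is the graph `GV x A` on the type of the elements of `A`.
-/

set_option autoImplicit false

namespace Pool.Agent.Work.MP_c4d05f_lc.N

open Pool.Agent.Work.PolyTime Pool.Agent.Work.MP_c4d05f_lc

/-- The graph induced on the elements of the list `A`. -/
abbrev GV (x : Inp) (A : List ℕ) : SimpleGraph {u // u ∈ A} := (ng x).comap Subtype.val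

variable {x : Inp} {A R : List ℕ}

theorem twB_iff {u v : {u // u ∈ A}} : twB x A u v = true ↔ Tw (GV x A) u v := by
  simp only [twB, List.any_eq_true, Bool.and_eq_true, Bool.not_eq_true', decide_eq_false_iff_not]
  constructor
  · rintro ⟨c, hc, d, hd, hcd, h1, h2, h3, h4⟩
    exact ⟨⟨c, hc⟩, ⟨d, hd⟩, fun h => hcd (congrArg Subtype.val h), h1, h2, h3, h4⟩
  · rintro ⟨⟨c, hc⟩, ⟨d, hd⟩, hcd, h1, h2, h3, h4⟩
    exact ⟨c, hc, d, hd, fun h => hcd (Subtype.ext h), h1, h2, h3, h4⟩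

theorem mem_clL_iff {u v : {u // u ∈ A}} : (u : ℕ) ∈ clL x A v ↔ u ∈ cl (GV x A) v := by
  constructor
  · intro h
    have key : ∀ b ∈ clL x A v, ∃ hb : b ∈ A, (⟨b, hb⟩ : {u // u ∈ A}) ∈ cl (GV x A) v := by
      refine lfp_induct (D := fun b : ℕ => ∃ hb : b ∈ A, (⟨b, hb⟩ : {u // u ∈ A}) ∈
        cl (GV x A) v) ?_
      intro L hL b hb hr
      simp only [Bool.or_eq_true, decide_eq_true_eq, List.any_eq_true] at hr
      rcases hr with h | ⟨a, ha, htw⟩
      · refine ⟨hb, ?_⟩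
        have : (⟨b, hb⟩ : {u // u ∈ A}) = v := Subtype.ext h
        rw [this]
        exact mem_cl_self v
      · obtain ⟨haA, ha'⟩ := hL a ha
        refine ⟨hb, ?_⟩
        exact cl_trans ha' (Relation.ReflTransGen.single
          ((twB_iff (u := ⟨a, haA⟩) (v := ⟨b, hb⟩)).1 htw))
    obtain ⟨hb, h'⟩ := key u h
    exact h'
  · intro h
    have h' : Relation.ReflTransGen (Tw (GV x A)) v u := h
    induction h' with
    | refl => exact self_mem_clL v.2
    | @tail b c h1 h2 ih =>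
      refine (mem_lfp clL_mono).2 ⟨c.2, ?_⟩
      simp only [Bool.or_eq_true, decide_eq_true_eq, List.any_eq_true]
      exact Or.inr ⟨b, ih h1, twB_iff.2 h2⟩

/-- `p` is the right second component of the guess of `y`. -/
def Gs (x : Inp) (A : List ℕ) (β : Set {u // u ∈ A}) (y p : {u // u ∈ A}) : Prop :=
  (y ∉ β ∧ p = y) ∨ (y ∈ β ∧ p ∈ β ∧ (GV x A).Adj y p)

variable {β : Set {u // u ∈ A}}

theorem exists_gs (hβ : Col (GV x A) Set.univ β) (y : {u // u ∈ A}) : ∃ p, Gs x A β y p := by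
  by_cases hy : y ∈ β
  · obtain ⟨p, hp, hadj⟩ := exists_partner hβ hy
    exact ⟨p, Or.inr ⟨hy, hp, hadj⟩⟩
  · exact ⟨y, Or.inl ⟨hy, rfl⟩⟩

theorem whB_iff_dd (hβ : Col (GV x A) Set.univ β) {y p : {u // u ∈ A}} (hg : Gs x A β y p)
    {u : {u // u ∈ A}} : whB x A (y, p) u = true ↔ (y ∉ β ∧ u ∈ cl (GV x A) y) ∨
      (y ∈ β ∧ ∃ b w, b ∈ β ∧ (b = y ∨ (GV x A).Adj y b) ∧ w ∉ β ∧ (GV x A).Adj b w ∧
        u ∈ cl (GV x A) w) := by
  rcases hg with ⟨hy, rfl⟩ | ⟨hy, hp, hadj⟩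
  · rw [whB_iff_white rfl, mem_clL_iff]
    constructor
    · exact fun h => Or.inl ⟨hy, h⟩
    · rintro (⟨-, h⟩ | ⟨h, -⟩)
      · exact h
      · exact absurd h hy
  · have hne : ((y : ℕ), (p : ℕ)).2 ≠ ((y : ℕ), (p : ℕ)).1 := fun h =>
      hadj.ne' (Subtype.ext h)
    rw [whB_iff_black hne]
    constructor
    · rintro ⟨w, hw, hor, hwy, hwp, hu⟩
      refine Or.inr ⟨hy, ?_⟩
      have hwy' : (⟨w, hw⟩ : {u // u ∈ A}) ≠ y := fun h => hwy (congrArg Subtype.val h)
      have hwp' : (⟨w, hw⟩ : {u // u ∈ A}) ≠ p := fun h => hwp (congrArg Subtype.val h)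
      have hu' := (mem_clL_iff (v := ⟨w, hw⟩)).1 hu
      rcases hor with h | h
      · have h' : (GV x A).Adj y ⟨w, hw⟩ := h
        refine ⟨y, ⟨w, hw⟩, hy, Or.inl rfl, fun hwb => ?_, h', hu'⟩
        exact hwp' (black_unique hβ hy hwb hp h' hadj)
      · have h' : (GV x A).Adj p ⟨w, hw⟩ := h
        refine ⟨p, ⟨w, hw⟩, hp, Or.inr hadj, fun hwb => ?_, h', hu'⟩
        exact hwy' (black_unique hβ hp hwb hy h' hadj.symm)
    · rintro (⟨h, -⟩ | ⟨-, b, w, hb, hby, hw, hbw, hu⟩)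
      · exact absurd hy h
      · refine ⟨w, w.2, ?_, fun h => ?_, fun h => ?_, mem_clL_iff.2 hu⟩
        · rcases hby with rfl | h
          · exact Or.inl hbw
          · rw [black_unique hβ hy hb hp h hadj] at hbw
            exact Or.inr hbw
        · exact hw (by rw [show w = y from Subtype.ext h]; exact hy)
        · exact hw (by rw [show w = p from Subtype.ext h]; exact hp)

theorem white_of_whB (hβ : Col (GV x A) Set.univ β) {y p : {u // u ∈ A}} (hg : Gs x A β y p)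
    {u : {u // u ∈ A}} (h : whB x A (y, p) u = true) : u ∉ β := by
  rcases (whB_iff_dd hβ hg).1 h with ⟨h1, h2⟩ | ⟨-, b, w, -, -, hw, -, hu⟩
  · exact fun h => h1 ((cl_color hβ h2).1 h)
  · exact fun h => hw ((cl_color hβ hu).1 h)

theorem dead_iff (hβ : Col (GV x A) Set.univ β) {y p : {u // u ∈ A}} (hg : Gs x A β y p)
    {u : {u // u ∈ A}} : (whB x A (y, p) u = true ∨ blB (y, p) u = true) ↔
      u ∈ dd (GV x A) β y := by
  rw [whB_iff_dd hβ hg, blB_iff]
  have hbl : (((p : ℕ) ≠ (y : ℕ)) ∧ ((u : ℕ) = (y : ℕ) ∨ (u : ℕ) = (p : ℕ))) ↔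
      (y ∈ β ∧ (u = y ∨ (u ∈ β ∧ (GV x A).Adj y u))) := by
    rcases hg with ⟨hy, rfl⟩ | ⟨hy, hp, hadj⟩
    · exact ⟨fun h => absurd rfl h.1, fun h => absurd h.1 hy⟩
    · constructor
      · rintro ⟨-, h | h⟩
        · exact ⟨hy, Or.inl (Subtype.ext h)⟩
        · have : u = p := Subtype.ext h
          subst this
          exact ⟨hy, Or.inr ⟨hp, hadj⟩⟩
      · rintro ⟨-, h⟩
        refine ⟨fun h => hadj.ne' (Subtype.ext h), ?_⟩
        rcases h with rfl | ⟨hu, h⟩
        · exact Or.inl rfl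
        · exact Or.inr (congrArg Subtype.val (black_unique hβ hy hu hp h hadj))
  change (_ ∨ (((p : ℕ) ≠ (y : ℕ)) ∧ ((u : ℕ) = (y : ℕ) ∨ (u : ℕ) = (p : ℕ)))) ↔ _
  rw [hbl]
  simp only [dd, Set.mem_ofPred_eq]
  rw [or_assoc, or_comm (a := y ∈ β ∧ ∃ b w, b ∈ β ∧ (b = y ∨ (GV x A).Adj y b) ∧ w ∉ β ∧
    (GV x A).Adj b w ∧ u ∈ cl (GV x A) w)]

/-! ### Lists of sets -/

open Classical in
/-- The list of the elements of `K`. -/
noncomputable def LK (K : Set {u // u ∈ A}) : List ℕ :=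
  A.filter fun u => decide (∃ h : u ∈ A, (⟨u, h⟩ : {u // u ∈ A}) ∈ K)

theorem mem_LK {K : Set {u // u ∈ A}} {u : ℕ} :
    u ∈ LK K ↔ ∃ h : u ∈ A, (⟨u, h⟩ : {u // u ∈ A}) ∈ K := by
  simp only [LK, List.mem_filter, decide_eq_true_eq]
  exact ⟨fun h => h.2, fun h => ⟨h.1, h⟩⟩

theorem mem_LK' {K : Set {u // u ∈ A}} {u : {u // u ∈ A}} : (u : ℕ) ∈ LK K ↔ u ∈ K := by
  rw [mem_LK]
  exact ⟨fun ⟨_, h⟩ => h, fun h => ⟨u.2, h⟩⟩

theorem LK_sublist (K : Set {u // u ∈ A}) : (LK K).Sublist A := List.filter_sublist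

theorem sublist_eq_filter {A L : List ℕ} (hA : A.Nodup) (h : L.Sublist A) :
    L = A.filter fun u => memB u L := by
  induction h with
  | slnil => rfl
  | @cons L A a h ih =>
    have ha : a ∉ L := fun h' => (List.nodup_cons.1 hA).1 (h.subset h')
    have h1 : memB a L = false := by
      rw [← Bool.not_eq_true, memB_iff]
      exact ha
    rw [List.filter_cons, h1]
    simpa using ih (List.nodup_cons.1 hA).2
  | @cons_cons L A a h ih =>
    have ha : a ∉ A := (List.nodup_cons.1 hA).1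
    have h1 : memB a (a :: L) = true := by
      rw [memB_iff]
      exact List.mem_cons_self
    rw [List.filter_cons, h1]
    simp only [if_true, List.cons.injEq, true_and]
    have h2 : A.filter (fun u => memB u (a :: L)) = A.filter (fun u => memB u L) := by
      refine List.filter_congr (fun u hu => ?_)
      rw [Bool.eq_iff_iff, memB_iff, memB_iff, List.mem_cons]
      exact ⟨fun h => h.resolve_left (fun h => ha (h ▸ hu)), Or.inr⟩
    rw [h2]
    exact ih (List.nodup_cons.1 hA).2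

theorem sublist_ext {A L L' : List ℕ} (hA : A.Nodup) (h : L.Sublist A) (h' : L'.Sublist A)
    (he : ∀ u, u ∈ L ↔ u ∈ L') : L = L' := by
  rw [sublist_eq_filter hA h, sublist_eq_filter hA h']
  refine List.filter_congr (fun u _ => ?_)
  rw [Bool.eq_iff_iff, memB_iff, memB_iff]
  exact he u

theorem reachL_sublist {x : Inp} {A : List ℕ} {v : ℕ} : (reachL x A v).Sublist A := by
  have hmono : ∀ L L' : List ℕ, (∀ b ∈ L, b ∈ L') → ∀ b,
      (decide (b = v) || L.any fun a => adjB x a b) = true →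
      (decide (b = v) || L'.any fun a => adjB x a b) = true := by
    intro L L' h b hb
    simp only [Bool.or_eq_true, decide_eq_true_eq, List.any_eq_true] at hb ⊢
    exact hb.imp id (fun ⟨a, ha, h'⟩ => ⟨a, h a ha, h'⟩)
  unfold reachL
  rw [lfp_fixed hmono]
  exact List.filter_sublist

theorem reach_iff {S : Set {u // u ∈ A}} {v : {u // u ∈ A}} {u : ℕ} :
    Reach (ng x) (st (LK S)) v u ↔ ∃ h : u ∈ A, Reach (GV x A) S v ⟨u, h⟩ := by
  constructor
  · intro h
    induction h with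
    | refl => exact ⟨v.2, Relation.ReflTransGen.refl⟩
    | @tail b c h1 h2 ih =>
      obtain ⟨hb, ih⟩ := ih
      obtain ⟨hc, hcS⟩ := mem_LK.1 (show c ∈ LK S from h2.2)
      exact ⟨hc, ih.tail ⟨h2.1, hcS⟩⟩
  · rintro ⟨h, h'⟩
    generalize hz : (⟨u, h⟩ : {u // u ∈ A}) = z at h'
    have key : Reach (ng x) (st (LK S)) v z := by
      clear hz
      induction h' with
      | refl => exact Relation.ReflTransGen.refl
      | @tail b c h1 h2 ih =>
        exact ih.tail ⟨h2.1, mem_LK'.2 h2.2⟩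
    rw [← hz] at key
    exact key

theorem reachL_LK (hA : A.Nodup) {S : Set {u // u ∈ A}} {v : {u // u ∈ A}} (hv : v ∈ S) :
    reachL x (LK S) v = LK (Comp (GV x A) S v) := by
  refine sublist_ext hA (reachL_sublist.trans (LK_sublist S)) (LK_sublist _) (fun u => ?_)
  rw [mem_reachL (mem_LK'.2 hv), reach_iff, mem_LK]
  exact Iff.rfl

theorem LK_univ : LK (Set.univ : Set {u // u ∈ A}) = A := by
  refine List.filter_eq_self.2 (fun u hu => ?_)
  simp [hu]

theorem restL_LK (hβ : Col (GV x A) Set.univ β) (hA : A.Nodup) {K X : Set {u // u ∈ A}}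
    {gs : List (ℕ × ℕ)} (h1 : ∀ g ∈ gs, ∃ y ∈ X, ∃ p, Gs x A β y p ∧ g = ((y : ℕ), (p : ℕ)))
    (h2 : ∀ y ∈ X, ∃ p, Gs x A β y p ∧ ((y : ℕ), (p : ℕ)) ∈ gs) :
    restL x A (LK K) gs = LK (K \ dD (GV x A) β X) := by
  refine sublist_ext hA (List.filter_sublist.trans (LK_sublist K)) (LK_sublist _) (fun u => ?_)
  rw [mem_restL, mem_LK, mem_LK]
  constructor
  · rintro ⟨⟨h, hK⟩, hgs⟩
    refine ⟨h, hK, ?_⟩
    rintro ⟨y, hy, hu⟩
    obtain ⟨p, hp, hg⟩ := h2 y hy
    exact hgs _ hg ((dead_iff hβ hp (u := ⟨u, h⟩)).2 hu)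
  · rintro ⟨h, hK, hu⟩
    refine ⟨⟨h, hK⟩, fun g hg hor => ?_⟩
    obtain ⟨y, hy, p, hp, rfl⟩ := h1 g hg
    exact hu ⟨y, hy, (dead_iff hβ hp (u := ⟨u, h⟩)).1 hor⟩

theorem mem_tuplesL {gs : List (ℕ × ℕ)} : ∀ (w : ℕ) (l : List (ℕ × ℕ)), l.length ≤ w →
    (∀ g ∈ l, g ∈ gs) → l ∈ tuplesL gs w := by
  intro w
  induction w with
  | zero =>
    intro l hl _
    have : l = [] := List.length_eq_zero_iff.1 (Nat.le_zero.1 hl)
    subst this
    simp [tuplesL]
  | succ w ih =>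
    intro l hl hg
    cases l with
    | nil => simp [tuplesL]
    | cons g l =>
      simp only [tuplesL, List.mem_cons, List.mem_flatMap, List.mem_map]
      refine Or.inr ⟨l, ih l (by simpa using hl) (fun g' hg' => hg g' (List.mem_cons_of_mem _ hg')),
        g, hg g List.mem_cons_self, rfl⟩

theorem mem_pairsL {A : List ℕ} {a b : ℕ} (ha : a ∈ A) (hb : b ∈ A) : (a, b) ∈ pairsL A := by
  simp only [pairsL, List.mem_flatMap, List.mem_map]
  exact ⟨a, ha, b, hb, rfl⟩

theorem region_mem (hβ : Col (GV x A) Set.univ β) (hA : A.Nodup) {w : ℕ}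
    {K : Set {u // u ∈ A}} (hK : Region (GV x A) β w K) : LK K ∈ regionsL w x A := by
  classical
  obtain ⟨X, hX, v, hv, rfl⟩ := hK
  choose p hp using exists_gs hβ
  set gs : List (ℕ × ℕ) := X.toList.map (fun y : {u // u ∈ A} => ((y : ℕ), (p y : ℕ))) with hgs
  have e : restL x A A gs = LK ((dD (GV x A) β (X : Set {u // u ∈ A}))ᶜ) := by
    have h := restL_LK (K := Set.univ) (X := (X : Set {u // u ∈ A})) hβ hA (gs := gs)
      (by
        intro g hg
        simp only [hgs, List.mem_map, Finset.mem_toList] at hg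
        obtain ⟨y, hy, rfl⟩ := hg
        exact ⟨y, hy, p y, hp y, rfl⟩)
      (by
        intro y hy
        refine ⟨p y, hp y, ?_⟩
        simp only [hgs, List.mem_map, Finset.mem_toList]
        exact ⟨y, hy, rfl⟩)
    rw [LK_univ, ← Set.compl_eq_univ_sdiff] at h
    exact h
  simp only [regionsL, List.mem_flatMap, List.mem_map]
  refine ⟨gs, mem_tuplesL w gs ?_ ?_, v, ?_, ?_⟩
  · rw [hgs, List.length_map, Finset.length_toList]
    exact hX
  · intro g hg
    simp only [hgs, List.mem_map, Finset.mem_toList] at hg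
    obtain ⟨y, hy, rfl⟩ := hg
    exact mem_pairsL y.2 (p y).2
  · rw [e, mem_LK']
    exact hv
  · rw [e, reachL_LK hA hv]

/-- Derivations give solved regions. -/
theorem der_solved (hβ : Col (GV x A) Set.univ β) (hA : A.Nodup)
    (hR : ∀ u : {u // u ∈ A}, (u : ℕ) ∈ R → u ∈ β) {w : ℕ} {K : Set {u // u ∈ A}}
    (hK : Der (GV x A) β w K) : LK K ∈ solvedL w x A R := by
  classical
  induction hK with
  | @step K y hreg hy _ ih =>
    refine (mem_lfp stepB_mono).2 ⟨region_mem hβ hA hreg, ?_⟩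
    obtain ⟨X, hX, v, hv, rfl⟩ := hreg
    set K := Comp (GV x A) (dD (GV x A) β (X : Set {u // u ∈ A}))ᶜ v with hKdef
    obtain ⟨p, hp⟩ := exists_gs hβ y
    have e : restL x A (LK K) [((y : ℕ), (p : ℕ))] = LK (K \ dd (GV x A) β y) := by
      have h := restL_LK (K := K) (X := {y}) hβ hA (gs := [((y : ℕ), (p : ℕ))])
        (by
          intro g hg
          rw [List.mem_singleton] at hg
          exact ⟨y, rfl, p, hp, hg⟩)
        (by
          intro z hz
          rw [Set.mem_singleton_iff] at hz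
          subst hz
          exact ⟨p, hp, List.mem_singleton.2 rfl⟩)
      have h' : dD (GV x A) β {y} = dd (GV x A) β y := by
        ext u
        simp [dD]
      rw [h'] at h
      exact h
    refine stepB_iff.2 ⟨y, mem_LK'.2 hy, p, p.2, okB_iff.2 ⟨?_, ?_⟩, ?_⟩
    · rcases hp with ⟨-, h⟩ | ⟨hyb, hpb, hadj⟩
      · exact Or.inl (congrArg Subtype.val h)
      · exact Or.inr ⟨mem_LK'.2 (region_partner hβ hv hy hpb hadj), hadj⟩
    · intro u hu hwh
      obtain ⟨huA, huK⟩ := mem_LK.1 hu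
      have hub : (⟨u, huA⟩ : {u // u ∈ A}) ∉ β := white_of_whB hβ hp hwh
      refine ⟨?_, ?_, ?_⟩
      · rintro (h | ⟨z, hz, hadj, hzK⟩)
        · exact hub (hR ⟨u, huA⟩ h)
        · have hadj' : (GV x A).Adj ⟨u, huA⟩ ⟨z, hz⟩ := hadj
          have h1 := region_nbr hβ hv huK (fun h => hzK (mem_LK.2 ⟨hz, h⟩)) hadj'
          exact (hβ.1 _ trivial _ trivial hadj').elim hub h1.1
      · rintro ⟨hpy, hor⟩
        rcases hp with ⟨-, h⟩ | ⟨hyb, hpb, -⟩
        · exact hpy (congrArg Subtype.val h)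
        · rcases hor with h | h
          · exact hub (by rw [show (⟨u, huA⟩ : {u // u ∈ A}) = y from Subtype.ext h]; exact hyb)
          · exact hub (by rw [show (⟨u, huA⟩ : {u // u ∈ A}) = p from Subtype.ext h]; exact hpb)
      · intro z hz hwz hadj
        obtain ⟨hzA, hzK⟩ := mem_LK.1 hz
        have hadj' : (GV x A).Adj ⟨u, huA⟩ ⟨z, hzA⟩ := hadj
        exact (hβ.1 _ trivial _ trivial hadj').elim hub
          (white_of_whB hβ hp (u := ⟨z, hzA⟩) hwz)
    · rw [e]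
      intro z hz
      obtain ⟨hzA, hzK⟩ := mem_LK.1 hz
      have h1 := ih ⟨z, hzA⟩ hzK
      rw [← reachL_LK hA hzK] at h1
      exact h1

/-- Completeness of the main algorithm. -/
theorem main_complete (hβ : Col (GV x A) Set.univ β) (hA : A.Nodup)
    (hR : ∀ u : {u // u ∈ A}, (u : ℕ) ∈ R → u ∈ β) {w : ℕ}
    (hD : ∀ v, Der (GV x A) β w (Comp (GV x A) Set.univ v)) : mainB w x A R = true := by
  simp only [mainB, List.all_eq_true, memB_iff]
  intro v hv
  have h := der_solved hβ hA hR (hD ⟨v, hv⟩)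
  rw [← reachL_LK hA (Set.mem_univ _), LK_univ] at h
  exact h

end Pool.Agent.Work.MP_c4d05f_lc.N
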