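import Pool.Agent.Work.MP_c4d05f_lc.Col

/-!
# Static approach (stage 1): definitions shared by the algorithm (block N/Alg) and the haven part

`G` is a graph, `β` the set of black vertices of ONE solution (`Col G Set.univ β`).
Regions are the components of `G` minus the dead set `dD G β X` of a small set `X`; `Der G β w K`
says that the region `K` can be solved by the rule R1 (kill one vertex `y ∈ K`, then all components
of `K \ dd G β y` are solved) inside the family of the regions with `|X| ≤ w`.

The haven part has to prove `HavenThm P w` for the class `P` of graphs considered in stage 1.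
-/

set_option autoImplicit false

namespace Pool.Agent.Work.MP_c4d05f_lc.N

open Pool.Agent.Work.MP_c4d05f_lc

/-- `u` and `v` have two common neighbours (`Tw G u u` if `u` has two neighbours). -/
def Tw {V : Type*} (G : SimpleGraph V) (u v : V) : Prop :=
  ∃ c d, c ≠ d ∧ G.Adj u c ∧ G.Adj v c ∧ G.Adj u d ∧ G.Adj v d

/-- The class of `v` for the transitive closure of `Tw` (all its elements have the colour of `v` in
each solution). -/
def cl {V : Type*} (G : SimpleGraph V) (v : V) : Set V := {u | Relation.ReflTransGen (Tw G) v u}

/-- The dead set of one vertex `x`. If `x` is white: the class of `x`. If `x` is black: `x`, its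
partner, and the classes of the white neighbours of both. -/
def dd {V : Type*} (G : SimpleGraph V) (β : Set V) (x : V) : Set V :=
  {u | (x ∉ β ∧ u ∈ cl G x) ∨ (x ∈ β ∧ (u = x ∨ (u ∈ β ∧ G.Adj x u))) ∨
    (x ∈ β ∧ ∃ b w, b ∈ β ∧ (b = x ∨ G.Adj x b) ∧ w ∉ β ∧ G.Adj b w ∧ u ∈ cl G w)}

/-- The dead set of a set of vertices. -/
def dD {V : Type*} (G : SimpleGraph V) (β : Set V) (X : Set V) : Set V :=
  {u | ∃ x ∈ X, u ∈ dd G β x}

/-- `K` is a component of `G - dD G β X` for some `X` with at most `w` elements. -/
def Region {V : Type*} (G : SimpleGraph V) (β : Set V) (w : ℕ) (K : Set V) : Prop :=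
  ∃ X : Finset V, X.card ≤ w ∧ ∃ v, v ∉ dD G β X ∧ K = Comp G (dD G β X)ᶜ v

/-- The region `K` is solved by the rule R1 (inside the family of the regions of order `w`). -/
inductive Der {V : Type*} (G : SimpleGraph V) (β : Set V) (w : ℕ) : Set V → Prop
  | step {K : Set V} {y : V} : Region G β w K → y ∈ K →
      (∀ v ∈ K \ dd G β y, Der G β w (Comp G (K \ dd G β y) v)) → Der G β w K

/-- Each vertex is in at most one triangle (no `K4`, no diamond, no butterfly). -/
def Clean {V : Type*} (G : SimpleGraph V) : Prop :=
  ∀ v a b c d, G.Adj v a → G.Adj v b → G.Adj a b → G.Adj v c → G.Adj v d → G.Adj c d →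
    c = a ∨ c = b

/-- What the haven part proves (for the class `P` of graphs and some `w`). -/
def HavenThm (P : ∀ V : Type, SimpleGraph V → Prop) (w : ℕ) : Prop :=
  ∀ (V : Type) [Fintype V] (G : SimpleGraph V) (β : Set V), P V G → Clean G →
    Col G Set.univ β → ∀ v, Der G β w (Comp G Set.univ v)

end Pool.Agent.Work.MP_c4d05f_lc.N
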