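import Pool.Agent.Work.MP_c4d05f_lc.N.Alg.Basic

/-!
# Static approach (stage 2): the frame rule, definitions shared by the algorithm and the haven part

`Core G A T`: the core of the set `A` with terminals `T`; `Cor G l a`: the candidate set of corners
given by the guess `a : ℕ → ℕ → V` (only `a i j` with `i < 4`, `j ≤ l` is used): `a i j`, `j < l`, are
the arms, `a i l` the ends of the arms.
`Frame G K C`: the structure conditions (s1), (s2), (s3) of the frame rule for the region `K` and
the candidate set `C` (the corners of `K` are the elements of `K ∩ C`).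
`Der2 G β 𝒞 w K`: the region `K` can be solved by the rule R1 and the frame rule with the candidate
sets in `𝒞`.
-/

set_option autoImplicit false

namespace Pool.Agent.Work.MP_c4d05f_lc.N

open Pool.Agent.Work.MP_c4d05f_lc

variable {V : Type*}

/-- `x, y, z` is a triangle. -/
def Tri (G : SimpleGraph V) (x y z : V) : Prop := G.Adj x y ∧ G.Adj y z ∧ G.Adj x z

/-- `{x, y, z}` has at most two elements (`x = y`) or is a triangle. -/
def Sep3 (G : SimpleGraph V) (x y z : V) : Prop := x = y ∨ Tri G x y z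

/-- The core of `A` with terminals `T`: the terminals, and the vertices of `A` that cannot be
separated from the terminals by two vertices or by a triangle. -/
def Core (G : SimpleGraph V) (A T : Set V) : Set V :=
  {v | v ∈ A ∧ (v ∈ T ∨ ∀ x y z, v ≠ x → v ≠ y → v ≠ z → Sep3 G x y z →
    ∃ t ∈ T, t ≠ x ∧ t ≠ y ∧ t ≠ z ∧ Reach G (A \ {x, y, z}) v t)}

/-- The vertices of the arms. -/
def ArmV (l : ℕ) (a : ℕ → ℕ → V) : Set V := {v | ∃ i < 4, ∃ j < l, v = a i j}

/-- The neighbours of the arms that are neither on an arm nor an end `a i l`. -/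
def NArm (G : SimpleGraph V) (l : ℕ) (a : ℕ → ℕ → V) : Set V :=
  {v | v ∉ ArmV l a ∧ (∀ i < 4, v ≠ a i l) ∧ ∃ u ∈ ArmV l a, G.Adj u v}

/-- The component of the end `a 0 l` after deletion of the arms and their neighbours. -/
def VZ (G : SimpleGraph V) (l : ℕ) (a : ℕ → ℕ → V) : Set V :=
  Comp G (ArmV l a ∪ NArm G l a)ᶜ (a 0 l)

/-- The terminals: the last vertices `a i (l - 1)` of the arms. -/
def TmV (l : ℕ) (a : ℕ → ℕ → V) : Set V := {v | ∃ i < 4, v = a i (l - 1)}

/-- The candidate set of corners given by `a`. -/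
def Cor (G : SimpleGraph V) (l : ℕ) (a : ℕ → ℕ → V) : Set V :=
  Core G (VZ G l a ∪ TmV l a) (TmV l a) \ TmV l a

/-- The family of the candidate sets. -/
def CorFam (l : ℕ) (G : SimpleGraph V) : Set (Set V) := {C | ∃ a : ℕ → ℕ → V, C = Cor G l a}

/-- `c` is adjacent to the component of `v` in `G[K \ C]`. -/
def Att (G : SimpleGraph V) (K C : Set V) (v c : V) : Prop := ∃ u ∈ Comp G (K \ C) v, G.Adj u c

/-- `c` and `d` are linked: adjacent, or adjacent to the same component of `G[K \ C]`. -/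
def Lk (G : SimpleGraph V) (K C : Set V) (c d : V) : Prop :=
  c ≠ d ∧ (G.Adj c d ∨ ∃ v ∈ K \ C, Att G K C v c ∧ Att G K C v d)

/-- `c` and `d` are two vertices of a triangle. -/
def SameTri (G : SimpleGraph V) (c d : V) : Prop := ∃ z, Tri G c d z

/-- The conditions (s1), (s2), (s3) of the frame rule. -/
structure Frame (G : SimpleGraph V) (K C : Set V) : Prop where
  tri : ∀ c ∈ K ∩ C, ∃ c' ∈ C, ∃ c'' ∈ C, Tri G c c' c''
  sep : ∀ v ∈ K \ C, ∃ x y z, Sep3 G x y z ∧
    ∀ c ∈ K ∩ C, Att G K C v c → c = x ∨ c = y ∨ c = z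
  link : ∀ c ∈ K ∩ C, ∀ d ∈ K ∩ C, ∀ d' ∈ K ∩ C, ¬ SameTri G c d → ¬ SameTri G c d' →
    Lk G K C c d → Lk G K C c d' → d = d'

/-- The vertices of the component `M` of `v` in `G[K \ C]` that are known (white) when the colours of
the corners adjacent to `M` are known. -/
def UM (G : SimpleGraph V) (β K C : Set V) (v : V) : Set V :=
  {u | u ∈ Comp G (K \ C) v ∧ ∃ c ∈ K ∩ C, Att G K C v c ∧
    ((c ∉ β ∧ u ∈ cl G c) ∨ (c ∈ β ∧ ∃ z ∈ Comp G (K \ C) v, G.Adj c z ∧ u ∈ cl G z))}

/-- The region `K` is solved by the rule R1 and the frame rule (inside the family of the regions of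
order `w`). -/
inductive Der2 (G : SimpleGraph V) (β : Set V) (𝒞 : Set (Set V)) (w : ℕ) : Set V → Prop
  | step {K : Set V} {y : V} : Region G β w K → y ∈ K →
      (∀ v ∈ K \ dd G β y, Der2 G β 𝒞 w (Comp G (K \ dd G β y) v)) → Der2 G β 𝒞 w K
  | frame {K C : Set V} : Region G β w K → C ∈ 𝒞 → (K ∩ C).Nonempty → Frame G K C →
      (∀ v ∈ K \ C, ∀ u ∈ Comp G (K \ C) v \ UM G β K C v,
        Der2 G β 𝒞 w (Comp G (Comp G (K \ C) v \ UM G β K C v) u)) → Der2 G β 𝒞 w K

/-- What the haven part proves (for the class `P` of graphs, the candidate sets `𝒞` and some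
`w`). -/
def HavenThm2 (P : ∀ V : Type, SimpleGraph V → Prop) (𝒞 : ∀ V : Type, SimpleGraph V → Set (Set V))
    (w : ℕ) : Prop :=
  ∀ (V : Type) [Fintype V] (G : SimpleGraph V) (β : Set V), P V G → Clean G →
    Col G Set.univ β → ∀ v, Der2 G β (𝒞 V G) w (Comp G Set.univ v)

end Pool.Agent.Work.MP_c4d05f_lc.N
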