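import Pool.Agent.Work.MP_c4d05f_lc.N.Alg.Complete
import Pool.Agent.Work.MP_c4d05f_lc.Final

/-!
# Preprocessing and the final statement of block N/Alg

`poly_of_haven`: if the haven theorem holds for a class of graphs closed under induced subgraphs
then dominating induced matchings are decided in polynomial time on the graphs of the class.
-/

set_option autoImplicit false

namespace Pool.Agent.Work.MP_c4d05f_lc.N

open Pool.Agent.Work.PolyTime Pool.Agent.Work.MP_c4d05f_lc

variable {x : Inp}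

theorem adj_lt {u v : ℕ} (h : (ng x).Adj u v) : u < x.1 ∧ v < x.1 := by
  rw [ng_adj, adjB_iff] at h
  exact ⟨h.1, h.2.1⟩

theorem tipB_iff {w : ℕ} : tipB x w = true ↔ ∃ a b c, (ng x).Adj w a ∧ (ng x).Adj w b ∧
    (ng x).Adj a b ∧ (ng x).Adj c a ∧ (ng x).Adj c b ∧ c ≠ w := by
  simp only [tipB, List.any_eq_true, Bool.and_eq_true, Bool.not_eq_true',
    decide_eq_false_iff_not, List.mem_range, ← ng_adj]
  constructor
  · rintro ⟨a, -, b, -, c, -, h⟩
    exact ⟨a, b, c, h⟩
  · rintro ⟨a, b, c, h⟩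
    exact ⟨a, (adj_lt h.1).2, b, (adj_lt h.2.1).2, c, (adj_lt h.2.2.2.1).1, h⟩

theorem butB_iff {w : ℕ} : butB x w = true ↔ ∃ a b c d, (ng x).Adj w a ∧ (ng x).Adj w b ∧
    (ng x).Adj a b ∧ (ng x).Adj w c ∧ (ng x).Adj w d ∧ (ng x).Adj c d ∧ c ≠ a ∧ c ≠ b ∧
    d ≠ a ∧ d ≠ b := by
  simp only [butB, List.any_eq_true, Bool.and_eq_true, Bool.not_eq_true',
    decide_eq_false_iff_not, List.mem_range, ← ng_adj]
  constructor
  · rintro ⟨a, -, b, -, h1, h2, h3, c, -, d, -, h⟩
    exact ⟨a, b, c, d, h1, h2, h3, h⟩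
  · rintro ⟨a, b, c, d, h1, h2, h3, h⟩
    exact ⟨a, (adj_lt h1).2, b, (adj_lt h2).2, h1, h2, h3, c, (adj_lt h.1).2, d,
      (adj_lt h.2.1).2, h⟩

theorem mem_iniL {w : ℕ} {c : Bool} : (w, c) ∈ iniL x ↔
    w < x.1 ∧ (tipB x w = true ∨ butB x w = true) ∧ c = false := by
  simp only [iniL, List.mem_map, List.mem_filter, List.mem_range, Bool.or_eq_true, Prod.mk.injEq]
  constructor
  · rintro ⟨a, ⟨h1, h2⟩, rfl, h⟩
    exact ⟨h1, h2, h.symm⟩
  · rintro ⟨h1, h2, h⟩
    exact ⟨w, ⟨h1, h2⟩, rfl, h.symm⟩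

theorem st_range : st (List.range x.1) = {u | u < x.1} := by
  ext u; simp

/-- The initial facts are true in each solution. -/
theorem ini_sound {β : Set ℕ} (hβ : Col (ng x) {u | u < x.1} β) {w : ℕ}
    (h : (w, false) ∈ iniL x) : w ∉ β := by
  intro hw
  obtain ⟨hwn, h | h, -⟩ := mem_iniL.1 h
  · obtain ⟨a, b, c, h1, h2, h3, h4, h5, h6⟩ := tipB_iff.1 h
    have ha := (adj_lt h1).2
    have hb := (adj_lt h2).2
    have hc := (adj_lt h4).1
    have h7 := (hβ.c4 hwn ha hc hb h1 h4.symm h5 h2.symm (Ne.symm h6) h3.ne).1 hw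
    have h8 := (hβ.c4 hwn hb hc ha h2 h5.symm h4 h1.symm (Ne.symm h6) h3.ne').1 hw
    exact (hβ.1 a ha b hb h3).elim h7 h8
  · obtain ⟨a, b, c, d, h1, h2, h3, h4, h5, h6, n1, n2, n3, n4⟩ := butB_iff.1 h
    obtain ⟨v, -, -, -, huni⟩ := hβ.2 w hwn hw
    have key : ∀ y ∈ β, ∀ z ∈ β, (ng x).Adj w y → (ng x).Adj w z → z = y := by
      intro y hy z hz hwy hwz
      exact (huni z (adj_lt hwz).2 hz hwz).trans (huni y (adj_lt hwy).2 hy hwy).symm
    rcases hβ.1 a (adj_lt h1).2 b (adj_lt h2).2 h3 with ha | hb <;>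
      rcases hβ.1 c (adj_lt h4).2 d (adj_lt h5).2 h6 with hc | hd
    · exact n1 (key a ha c hc h1 h4)
    · exact n3 (key a ha d hd h1 h5)
    · exact n2 (key b hb c hc h2 h4)
    · exact n4 (key b hb d hd h2 h5)

theorem pre_facts {β : Set ℕ} (hβ : Col (ng x) {u | u < x.1} β) {w : ℕ} {c : Bool}
    (h : Fact (ng x) (st (List.range x.1)) (lf (iniL x)) w c) : w ∈ β ↔ c = true := by
  refine Fact.sound (A := st (List.range x.1)) (by rw [st_range]; exact hβ) ?_ h
  intro w _
  constructor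
  · intro h
    exact absurd (mem_iniL.1 h).2.2 (by simp)
  · exact fun h => ini_sound hβ h

theorem pre_cons {β : Set ℕ} (hβ : Col (ng x) {u | u < x.1} β) :
    consB (List.range x.1) (preS x) = true := by
  refine consB_iff.2 (fun w hw => ?_)
  have h1 := (pre_facts hβ hw.1).2 rfl
  have h2 := (pre_facts hβ hw.2).1 h1
  exact absurd h2 (by simp)

theorem mem_preA {w : ℕ} : w ∈ preA x ↔ w ∈ AliveSet (ng x) (st (List.range x.1))
    (Fact (ng x) (st (List.range x.1)) (lf (iniL x))) := mem_aliveL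

theorem st_preA : st (preA x) = AliveSet (ng x) (st (List.range x.1))
    (Fact (ng x) (st (List.range x.1)) (lf (iniL x))) := by
  ext w
  exact mem_preA

theorem mem_preR {w : ℕ} : w ∈ preR x ↔ w ∈ preA x ∧
    Flag (ng x) (Fact (ng x) (st (List.range x.1)) (lf (iniL x))) w := by
  rw [preR, List.mem_filter]
  exact and_congr_right fun _ => flagB_iff

theorem preA_nodup : (preA x).Nodup := List.Nodup.filter _ List.nodup_range

theorem preA_lt {w : ℕ} (h : w ∈ preA x) : w < x.1 := by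
  have h1 := (mem_preA.1 h).1
  rw [st_range] at h1
  exact h1

/-- A solution restricts to the alive part. -/
theorem pre_restrict {β : Set ℕ} (hβ : Col (ng x) {u | u < x.1} β) :
    Col (ng x) (st (preA x)) β := by
  refine ⟨fun u hu v hv => hβ.1 u (preA_lt hu) v (preA_lt hv), ?_⟩
  intro u hu hub
  have hu' := mem_preA.1 hu
  have h := Col.restrict (G := ng x) (A := st (List.range x.1)) (I := lf (iniL x)) (β := β)
    (by rw [st_range]; exact hβ) (fun w c h => pre_facts hβ h) hu'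
  obtain ⟨v, hv, hvb, hadj, -⟩ := h.2 u (self_mem_comp u) hub
  have hvA : v ∈ preA x := mem_preA.2 (comp_subset hu' hv)
  obtain ⟨v', -, -, -, huni⟩ := hβ.2 u (preA_lt hu) hub
  refine ⟨v, hvA, hvb, hadj, fun z hz hzb huz => ?_⟩
  exact (huni z (preA_lt hz) hzb huz).trans (huni v (preA_lt hvA) hvb hadj).symm

/-- A solution of the alive part extends. -/
theorem pre_extend (hc : consB (List.range x.1) (preS x) = true) {β : Set ℕ}
    (hβ : Col (ng x) (st (preA x)) β) (hR : ∀ u ∈ preA x, u ∈ preR x → u ∈ β) :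
    ∃ β, Col (ng x) {u | u < x.1} β := by
  obtain ⟨β', h1, -⟩ := glue (G := ng x) (A := st (List.range x.1)) (I := lf (iniL x))
    (consB_iff.1 hc) (by
      intro w hw
      rw [st_preA] at hβ
      refine ⟨β, Col.comp hβ hw, fun u hu hut => ?_⟩
      have huA : u ∈ AliveSet (ng x) (st (List.range x.1))
          (Fact (ng x) (st (List.range x.1)) (lf (iniL x))) := comp_subset hw hu
      refine hR u (mem_preA.2 huA) (mem_preR.2 ⟨mem_preA.2 huA, ?_⟩)
      rcases huA.2 with h | h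
      · exact absurd hut h.1
      · exact h)
  rw [st_range] at h1
  exact ⟨β', h1⟩

/-- The alive part is clean. -/
theorem pre_clean (hc : consB (List.range x.1) (preS x) = true) : Clean (GV x (preA x)) := by
  have hcons := consB_iff.1 hc
  have hno : ∀ w : {u // u ∈ preA x}, ¬ (tipB x w = true ∨ butB x w = true) := by
    intro w hw
    have hf : Fact (ng x) (st (List.range x.1)) (lf (iniL x)) w false := by
      refine Fact.init ?_ (mem_iniL.2 ⟨preA_lt w.2, hw, rfl⟩)
      rw [st_range]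
      exact preA_lt w.2
    rcases (mem_preA.1 w.2).2 with h | h
    · exact h.2 hf
    · exact hcons _ ⟨h.1, hf⟩
  intro v a b c d h1 h2 h3 h4 h5 h6
  by_contra hcon
  push Not at hcon
  obtain ⟨hca, hcb⟩ := hcon
  have hne : ∀ p q : {u // u ∈ preA x}, p ≠ q → (p : ℕ) ≠ (q : ℕ) := fun p q h h' =>
    h (Subtype.ext h')
  by_cases hda : d = a
  · subst hda
    -- triangles `v d b` and `v c d`: `b` is a tip
    refine hno b (Or.inl (tipB_iff.2 ⟨v, d, c, ?_, ?_, ?_, ?_, ?_, hne _ _ hcb⟩))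
    · exact h2.symm
    · exact h3.symm
    · exact h1
    · exact h4.symm
    · exact h6
  · by_cases hdb : d = b
    · subst hdb
      refine hno a (Or.inl (tipB_iff.2 ⟨v, d, c, ?_, ?_, ?_, ?_, ?_, hne _ _ hca⟩))
      · exact h1.symm
      · exact h3
      · exact h2
      · exact h4.symm
      · exact h6
    · exact hno v (Or.inr (butB_iff.2 ⟨a, b, c, d, h1, h2, h3, h4, h5, h6, hne _ _ hca,
        hne _ _ hcb, hne _ _ hda, hne _ _ hdb⟩))

theorem col_GV {A : List ℕ} {β : Set ℕ} (hβ : Col (ng x) (st A) β) :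
    Col (GV x A) Set.univ {v : {u // u ∈ A} | (v : ℕ) ∈ β} := by
  refine ⟨fun u _ v _ h => hβ.1 u u.2 v v.2 h, ?_⟩
  intro u _ hu
  obtain ⟨v, hv, hvb, hadj, huni⟩ := hβ.2 u u.2 hu
  exact ⟨⟨v, hv⟩, trivial, hvb, hadj, fun z _ hzb huz => Subtype.ext (huni z z.2 hzb huz)⟩

/-- The alive part is an induced subgraph of the input graph. -/
theorem embed_GV (x : Inp) : Nonempty (GV x (preA x) ↪g graphOf x.1 x.2) := by
  refine ⟨⟨⟨fun v => ⟨v, preA_lt v.2⟩, fun a b h => Subtype.ext (Fin.mk.inj h)⟩, ?_⟩⟩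
  intro a b
  have h := ng_adj_iff (x := x) (u := a) (v := b)
  constructor
  · exact fun h' => h.2 ⟨preA_lt a.2, preA_lt b.2, h'⟩
  · intro h'
    obtain ⟨_, _, h''⟩ := h.1 h'
    exact h''

/-- **Final statement of the block N/Alg.** -/
theorem poly_of_haven {P : ∀ V : Type, SimpleGraph V → Prop}
    (hP : ∀ (V W : Type) (G : SimpleGraph V) (H : SimpleGraph W), Nonempty (H ↪g G) → P V G →
      P W H) {w : ℕ} (hH : HavenThm P w) :
    PTime (fun x : Inp => algoN w x) ∧ ∀ x : Inp, P (Fin x.1) (graphOf x.1 x.2) →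
      (algoN w x = true ↔ ∃ M, IsDIM (graphOf x.1 x.2) M) := by
  refine ⟨ptime_algoN w, fun x hx => ?_⟩
  rw [exists_isDIM_iff, ← col_iff]
  constructor
  · intro h
    rw [algoN, Bool.and_eq_true] at h
    obtain ⟨β, h1, h2⟩ := main_sound h.2
    exact pre_extend h.1 h1 h2
  · rintro ⟨β, hβ⟩
    rw [algoN, Bool.and_eq_true]
    have hc := pre_cons hβ
    refine ⟨hc, ?_⟩
    have hβ' := pre_restrict hβ
    refine main_complete (β := {v : {u // u ∈ preA x} | (v : ℕ) ∈ β}) (col_GV hβ') preA_nodup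
      ?_ ?_
    · intro u hu
      exact (pre_facts hβ (mem_preR.1 hu).2.1).2 rfl
    · have : Fintype {u // u ∈ preA x} := Fintype.ofFinite _
      exact hH _ _ _ (hP _ _ _ _ (embed_GV x) hx) (pre_clean hc) (col_GV hβ')

end Pool.Agent.Work.MP_c4d05f_lc.N
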