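import Pool.Agent.Work.MP_c4d05f_lc.Col

/-!
# Gluing solutions of the components (semantic form)
-/

set_option autoImplicit false

namespace Pool.Agent.Work.MP_c4d05f_lc.N

open Pool.Agent.Work.MP_c4d05f_lc

variable {V : Type*} {G : SimpleGraph V}

/-- `K` is split into a white independent set `T`, a set `B` of black vertices matched in `B` and
with no other neighbours outside `T`, and the rest. If all components of the rest have solutions in
which the vertices of `F` and the neighbours of `T` are black then `K` has a solution in which the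
vertices of `F` are black. -/
theorem glue2 {K T B F : Set V}
    (hT : ∀ u ∈ K, ∀ v ∈ K, u ∈ T → v ∈ T → ¬ G.Adj u v)
    (hTF : ∀ u ∈ K, u ∈ T → u ∉ F)
    (hTB : ∀ u ∈ K, u ∈ T → u ∉ B)
    (hB : ∀ u ∈ K, u ∈ B → ∃ p ∈ K, p ∈ B ∧ G.Adj u p ∧ ∀ z ∈ K, G.Adj u z → z = p ∨ z ∈ T)
    (hC : ∀ w ∈ K \ (T ∪ B), ∃ β, Col G (Comp G (K \ (T ∪ B)) w) β ∧
      ∀ u ∈ Comp G (K \ (T ∪ B)) w, (u ∈ F ∨ ∃ v ∈ K, G.Adj u v ∧ v ∈ T) → u ∈ β) :
    ∃ β, Col G K β ∧ ∀ u ∈ K, u ∈ F → u ∈ β := by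
  classical
  set S := K \ (T ∪ B) with hS
  let P : Set V → Set V → Prop := fun C β => Col G C β ∧
    ∀ u ∈ C, (u ∈ F ∨ ∃ v ∈ K, G.Adj u v ∧ v ∈ T) → u ∈ β
  have hb : ∃ b : Set V → Set V, ∀ w ∈ S, P (Comp G S w) (b (Comp G S w)) := by
    refine ⟨fun C => if h : ∃ β, P C β then h.choose else ∅, fun w hw => ?_⟩
    have h' : ∃ β, P (Comp G S w) β := hC w hw
    simp only [dif_pos h']
    exact h'.choose_spec
  obtain ⟨b, hb⟩ := hb
  have hSK : S ⊆ K := fun w hw => hw.1
  refine ⟨{u | u ∈ B ∨ (u ∈ S ∧ u ∈ b (Comp G S u))}, ⟨?_, ?_⟩, ?_⟩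
  · intro u hu v hv hadj
    by_contra hcon
    simp only [Set.mem_ofPred_eq, not_or, not_and] at hcon
    obtain ⟨⟨hu1, hu2⟩, hv1, hv2⟩ := hcon
    by_cases huT : u ∈ T
    · by_cases hvT : v ∈ T
      · exact hT u hu v hv huT hvT hadj
      · have hvS : v ∈ S := ⟨hv, by rintro (h | h); exacts [hvT h, hv1 h]⟩
        exact hv2 hvS ((hb v hvS).2 v (self_mem_comp v) (Or.inr ⟨u, hu, hadj.symm, huT⟩))
    · have huS : u ∈ S := ⟨hu, by rintro (h | h); exacts [huT h, hu1 h]⟩
      by_cases hvT : v ∈ T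
      · exact hu2 huS ((hb u huS).2 u (self_mem_comp u) (Or.inr ⟨v, hv, hadj, hvT⟩))
      · have hvS : v ∈ S := ⟨hv, by rintro (h | h); exacts [hvT h, hv1 h]⟩
        have hvC : v ∈ Comp G S u := adj_mem_comp (self_mem_comp u) hvS hadj
        have h2 := hv2 hvS
        rw [comp_eq huS hvC] at h2
        exact ((hb u huS).1.1 u (self_mem_comp u) v hvC hadj).elim (hu2 huS) h2
  · rintro u hu (huB | ⟨huS, hub⟩)
    · obtain ⟨p, hp, hpB, hadj, hN⟩ := hB u hu huB
      refine ⟨p, hp, Or.inl hpB, hadj, ?_⟩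
      rintro z hz hzβ huz
      rcases hN z hz huz with h | h
      · exact h
      · exfalso
        rcases hzβ with h1 | ⟨h1, -⟩
        · exact hTB z hz h h1
        · exact h1.2 (Or.inl h)
    · obtain ⟨v, hvC, hvb, hadj, huni⟩ := (hb u huS).1.2 u (self_mem_comp u) hub
      have hvS : v ∈ S := comp_subset huS hvC
      refine ⟨v, hSK hvS, Or.inr ⟨hvS, by rw [comp_eq huS hvC]; exact hvb⟩, hadj, ?_⟩
      rintro z hz (hzB | ⟨hzS, hzb⟩) huz
      · exfalso
        obtain ⟨p, hp, hpB, -, hN⟩ := hB z hz hzB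
        rcases hN u hu huz.symm with h | h
        · subst h
          exact huS.2 (Or.inr hpB)
        · exact huS.2 (Or.inl h)
      · have hzC : z ∈ Comp G S u := adj_mem_comp (self_mem_comp u) hzS huz
        rw [comp_eq huS hzC] at hzb
        exact huni z hzC hzb huz
  · intro u hu huF
    by_cases huB : u ∈ B
    · exact Or.inl huB
    · have huS : u ∈ S := ⟨hu, by rintro (h | h); exacts [hTF u hu h huF, huB h]⟩
      exact Or.inr ⟨huS, (hb u huS).2 u (self_mem_comp u) (Or.inl huF)⟩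

/-- A solution restricts to the components. -/
theorem Col.comp {A β : Set V} (h : Col G A β) {w : V} (hw : w ∈ A) : Col G (Comp G A w) β := by
  refine ⟨fun u hu v hv => h.1 u (comp_subset hw hu) v (comp_subset hw hv), ?_⟩
  intro u hu hub
  obtain ⟨v, hv, hvb, hadj, huni⟩ := h.2 u (comp_subset hw hu) hub
  exact ⟨v, adj_mem_comp hu hv hadj, hvb, hadj,
    fun z hz hzb hz' => huni z (comp_subset hw hz) hzb hz'⟩

end Pool.Agent.Work.MP_c4d05f_lc.N
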