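import Pool.Agent.Work.MP_c4d05f_lc.N.Alg.Algo
import Pool.Agent.Work.MP_c4d05f_lc.N.Alg.Glue
import Pool.Agent.Work.MP_c4d05f_lc.Spec

/-!
# Soundness of the main algorithm
-/

set_option autoImplicit false

namespace Pool.Agent.Work.MP_c4d05f_lc.N

open Pool.Agent.Work.PolyTime Pool.Agent.Work.MP_c4d05f_lc

theorem clL_mono {x : Inp} {A : List ℕ} {v : ℕ} (L L' : List ℕ) (h : ∀ b ∈ L, b ∈ L') (b : ℕ)
    (hb : (decide (b = v) || L.any fun a => twB x A a b) = true) :
    (decide (b = v) || L'.any fun a => twB x A a b) = true := by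
  simp only [Bool.or_eq_true, decide_eq_true_eq, List.any_eq_true] at hb ⊢
  exact hb.imp id (fun ⟨a, ha, h'⟩ => ⟨a, h a ha, h'⟩)

theorem self_mem_clL {x : Inp} {A : List ℕ} {v : ℕ} (hv : v ∈ A) : v ∈ clL x A v :=
  (mem_lfp clL_mono).2 ⟨hv, by simp⟩

theorem blB_iff {g : ℕ × ℕ} {u : ℕ} : blB g u = true ↔ g.2 ≠ g.1 ∧ (u = g.1 ∨ u = g.2) := by
  simp [blB]

theorem whB_iff_white {x : Inp} {A : List ℕ} {g : ℕ × ℕ} {u : ℕ} (h : g.2 = g.1) :
    whB x A g u = true ↔ u ∈ clL x A g.1 := by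
  simp [whB, h, memB_iff]

theorem whB_iff_black {x : Inp} {A : List ℕ} {g : ℕ × ℕ} {u : ℕ} (h : g.2 ≠ g.1) :
    whB x A g u = true ↔ ∃ w ∈ A, ((ng x).Adj g.1 w ∨ (ng x).Adj g.2 w) ∧ w ≠ g.1 ∧ w ≠ g.2 ∧
      u ∈ clL x A w := by
  simp only [whB, h, decide_false, cond_false, List.any_eq_true, Bool.and_eq_true, Bool.or_eq_true,
    Bool.not_eq_true', decide_eq_false_iff_not, memB_iff, ng_adj, ne_eq]

theorem mem_restL {x : Inp} {A K : List ℕ} {gs : List (ℕ × ℕ)} {u : ℕ} :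
    u ∈ restL x A K gs ↔ u ∈ K ∧ ∀ g ∈ gs, ¬ (whB x A g u = true ∨ blB g u = true) := by
  rw [restL, List.mem_filter, Bool.not_eq_true']
  refine and_congr_right fun _ => ?_
  rw [← Bool.not_eq_true, List.any_eq_true]
  constructor
  · intro h g hg hor
    exact h ⟨g, hg, by rw [Bool.or_eq_true]; exact hor⟩
  · rintro h ⟨g, hg, hor⟩
    rw [Bool.or_eq_true] at hor
    exact h g hg hor

theorem reqB_iff {x : Inp} {A R K : List ℕ} {u : ℕ} : reqB x A R K u = true ↔
    u ∈ R ∨ ∃ v ∈ A, (ng x).Adj u v ∧ v ∉ K := by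
  simp only [reqB, Bool.or_eq_true, memB_iff, List.any_eq_true, Bool.and_eq_true,
    Bool.not_eq_true', ng_adj]
  refine or_congr_right (exists_congr fun v => and_congr_right fun _ => and_congr_right fun _ => ?_)
  rw [← Bool.not_eq_true, memB_iff]

theorem okB_iff {x : Inp} {A R K : List ℕ} {g : ℕ × ℕ} : okB x A R K g = true ↔
    (g.2 = g.1 ∨ (g.2 ∈ K ∧ (ng x).Adj g.1 g.2)) ∧ ∀ u ∈ K, whB x A g u = true →
      ¬ (u ∈ R ∨ ∃ v ∈ A, (ng x).Adj u v ∧ v ∉ K) ∧ ¬ (g.2 ≠ g.1 ∧ (u = g.1 ∨ u = g.2)) ∧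
        ∀ v ∈ K, whB x A g v = true → ¬ (ng x).Adj u v := by
  have hnot : ∀ b : Bool, ((!b) = true) ↔ ¬ (b = true) := by
    intro b; cases b <;> simp
  simp only [okB, Bool.and_eq_true, Bool.or_eq_true, decide_eq_true_eq, memB_iff, List.all_eq_true,
    hnot, blB_iff, reqB_iff, ng_adj]
  refine and_congr_right fun _ => forall_congr' fun u => forall_congr' fun _ => ?_
  constructor
  · rintro (h | h) hw
    · exact absurd hw h
    · refine ⟨h.1, h.2.1, fun v hv hwv hadj => ?_⟩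
      rcases h.2.2 v hv with h3 | h3
      · exact h3 hwv
      · exact h3 hadj
  · intro h
    by_cases hw : whB x A g u = true
    · refine Or.inr ⟨(h hw).1, (h hw).2.1, fun v hv => ?_⟩
      by_cases hwv : whB x A g v = true
      · exact Or.inr ((h hw).2.2 v hv hwv)
      · exact Or.inl hwv
    · exact Or.inl hw

theorem stepB_iff {x : Inp} {A R : List ℕ} {L : List (List ℕ)} {K : List ℕ} :
    stepB x A R L K = true ↔ ∃ y ∈ K, ∃ p ∈ A, okB x A R K (y, p) = true ∧
      ∀ v ∈ restL x A K [(y, p)], reachL x (restL x A K [(y, p)]) v ∈ L := by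
  simp only [stepB, List.any_eq_true, Bool.and_eq_true, List.all_eq_true, memB_iff]

theorem stepB_mono {x : Inp} {A R : List ℕ} (L L' : List (List ℕ)) (h : ∀ b ∈ L, b ∈ L')
    (K : List ℕ) (hb : stepB x A R L K = true) : stepB x A R L' K = true := by
  rw [stepB_iff] at hb ⊢
  obtain ⟨y, hy, p, hp, hok, hall⟩ := hb
  exact ⟨y, hy, p, hp, hok, fun v hv => h _ (hall v hv)⟩

theorem region_sub {w : ℕ} {x : Inp} {A : List ℕ} {K : List ℕ} (h : K ∈ regionsL w x A) :
    ∀ u ∈ K, u ∈ A := by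
  simp only [regionsL, List.mem_flatMap, List.mem_map] at h
  obtain ⟨gs, -, v, -, rfl⟩ := h
  intro u hu
  exact (mem_restL.1 (reachL_subset hu)).1

/-- Soundness of the solved regions. -/
theorem solved_sound {w : ℕ} {x : Inp} {A R K : List ℕ} (h : K ∈ solvedL w x A R) :
    ∃ β, Col (ng x) (st K) β ∧
      ∀ u ∈ K, (u ∈ R ∨ ∃ v ∈ A, (ng x).Adj u v ∧ v ∉ K) → u ∈ β := by
  refine lfp_induct (D := fun K : List ℕ => ∃ β, Col (ng x) (st K) β ∧
    ∀ u ∈ K, (u ∈ R ∨ ∃ v ∈ A, (ng x).Adj u v ∧ v ∉ K) → u ∈ β) ?_ K h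
  clear h K
  intro L hL K hK hr
  have hKA := region_sub hK
  obtain ⟨y, hy, p, hp, hok, hall⟩ := stepB_iff.1 hr
  obtain ⟨hyp, hok⟩ := okB_iff.1 hok
  set T : Set ℕ := {u | whB x A (y, p) u = true} with hT
  set B : Set ℕ := {u | p ≠ y ∧ (u = y ∨ u = p)} with hB
  set F : Set ℕ := {u | u ∈ R ∨ ∃ v ∈ A, (ng x).Adj u v ∧ v ∉ K} with hF
  have hS : st (restL x A K [(y, p)]) = st K \ (T ∪ B) := by
    ext u
    simp only [Set.mem_ofPred_eq, mem_restL, List.mem_singleton, forall_eq, blB_iff, Set.mem_sdiff,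
      Set.mem_union, hT, hB]
  obtain ⟨β, h1, h2⟩ := glue2 (G := ng x) (K := st K) (T := T) (B := B) (F := F)
    (fun u hu v hv huT hvT => (hok u hu huT).2.2 v hv hvT)
    (fun u hu huT => (hok u hu huT).1)
    (fun u hu huT => (hok u hu huT).2.1)
    (by
      rintro u hu ⟨hpy, hup⟩
      obtain ⟨hpK, hadj⟩ := hyp.resolve_left hpy
      have key : ∀ z ∈ K, (ng x).Adj y z ∨ (ng x).Adj p z → z ≠ y → z ≠ p → z ∈ T := by
        intro z hz hor hzy hzp
        exact (whB_iff_black (g := (y, p)) hpy).2 ⟨z, hKA z hz, hor, hzy, hzp,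
          self_mem_clL (hKA z hz)⟩
      rcases hup with rfl | rfl
      · refine ⟨p, hpK, ⟨hpy, Or.inr rfl⟩, hadj, fun z hz hz' => ?_⟩
        by_cases hzp : z = p
        · exact Or.inl hzp
        · exact Or.inr (key z hz (Or.inl hz') hz'.ne' hzp)
      · refine ⟨y, hy, ⟨hpy, Or.inl rfl⟩, hadj.symm, fun z hz hz' => ?_⟩
        by_cases hzy : z = y
        · exact Or.inl hzy
        · exact Or.inr (key z hz (Or.inr hz') hzy hz'.ne'))
    (by
      intro w hw
      have hw' : w ∈ restL x A K [(y, p)] := by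
        have : w ∈ st (restL x A K [(y, p)]) := by rw [hS]; exact hw
        exact this
      obtain ⟨β, h1, h2⟩ := hL _ (hall w hw')
      have hcomp : st (reachL x (restL x A K [(y, p)]) w) = Comp (ng x) (st K \ (T ∪ B)) w := by
        rw [← hS]
        ext u
        exact mem_reachL hw'
      rw [hcomp] at h1
      refine ⟨β, h1, fun u hu hor => ?_⟩
      have huC : u ∈ reachL x (restL x A K [(y, p)]) w := by
        have : u ∈ st (reachL x (restL x A K [(y, p)]) w) := by rw [hcomp]; exact hu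
        exact this
      refine h2 u huC ?_
      have hout : ∀ v, v ∈ reachL x (restL x A K [(y, p)]) w → v ∈ st K \ (T ∪ B) := by
        intro v hv
        have : v ∈ st (restL x A K [(y, p)]) := reachL_subset hv
        rwa [hS] at this
      rcases hor with (h | ⟨v, hv, hadj, hvK⟩) | ⟨v, hv, hadj, hvT⟩
      · exact Or.inl h
      · exact Or.inr ⟨v, hv, hadj, fun h => hvK (hout v h).1⟩
      · exact Or.inr ⟨v, hKA v hv, hadj, fun h => (hout v h).2 (Or.inl hvT)⟩)
  exact ⟨β, h1, h2⟩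

/-- Soundness of the main algorithm. -/
theorem main_sound {w : ℕ} {x : Inp} {A R : List ℕ} (h : mainB w x A R = true) :
    ∃ β, Col (ng x) (st A) β ∧ ∀ u ∈ A, u ∈ R → u ∈ β := by
  simp only [mainB, List.all_eq_true, memB_iff] at h
  have hS : st A \ (∅ ∪ ∅) = st A := by simp
  obtain ⟨β, h1, h2⟩ := glue2 (G := ng x) (K := st A) (T := ∅) (B := ∅) (F := {u | u ∈ R})
    (fun _ _ _ _ h => h.elim) (fun _ _ h => h.elim) (fun _ _ h => h.elim)
    (fun _ _ h => h.elim)
    (by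
      rw [hS]
      intro w hw
      obtain ⟨β, h1, h2⟩ := solved_sound (h w hw)
      have hcomp : st (reachL x A w) = Comp (ng x) (st A) w := by
        ext u
        exact mem_reachL hw
      rw [hcomp] at h1
      refine ⟨β, h1, fun u hu hor => ?_⟩
      have huC : u ∈ reachL x A w := by
        have : u ∈ st (reachL x A w) := by rw [hcomp]; exact hu
        exact this
      rcases hor with h | ⟨v, -, -, hv⟩
      · exact h2 u huC (Or.inl h)
      · exact hv.elim)
  exact ⟨β, h1, h2⟩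

end Pool.Agent.Work.MP_c4d05f_lc.N
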